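import Pool.Agent.L7h52.Peak.Main

/-!
The peaking function and the divergence of the integral.
-/

set_option autoImplicit false

namespace Pool.Agent.L7h52.Peak

open Finset

variable {α : ℝ} (h0 : 0 < α) (h1 : α < 1)

open Classical in
/-- the peaking function -/
noncomputable def F (α M : ℝ) (z : ℂ) : ℂ := if z ∈ E α then 1 else 1 - (G α M z)⁻¹

include h0 h1 in
/-- differences of the sum -/
theorem G_sub_le {M D : ℝ} (hM : 0 ≤ M) {z w : ℂ} (hz1 : ‖z‖ ≤ 1) (hw1 : ‖w‖ ≤ 1)
    (hD : 0 < D) (hzD : ∀ e ∈ E α, D ≤ ‖z - e‖) (hzw : ‖w - z‖ ≤ D / 2)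
    (hs : Summable fun k => B α z k)
    (hgz : Summable fun k => gb α z k) (hgw : Summable fun k => gb α w k) :
    ‖G α M w - G α M z‖ ≤ 16 * ‖w - z‖ / D * (M / ‖1 - z‖ + ∑' k, B α z k) := by
  have hzE : z ∉ E α := by
    intro h
    have := hzD z h
    rw [sub_self, norm_zero] at this
    linarith
  have hwE : ∀ e ∈ E α, D / 2 ≤ ‖w - e‖ := by
    intro e he
    have h2 := hzD e he
    have h3 : ‖z - e‖ ≤ ‖w - e‖ + ‖w - z‖ := by
      calc ‖z - e‖ = ‖(w - e) - (w - z)‖ := by congr 1; ring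
        _ ≤ _ := norm_sub_le _ _
    linarith
  have h1E : (1 : ℂ) ∈ E α := mem_E.2 (Or.inl rfl)
  have hz1n : D ≤ ‖1 - z‖ := by rw [norm_sub_rev]; exact hzD 1 h1E
  have hw1n : ‖1 - z‖ / 2 ≤ ‖1 - w‖ := by
    have h3 : ‖1 - z‖ ≤ ‖1 - w‖ + ‖w - z‖ := by
      calc ‖1 - z‖ = ‖(1 - w) + (w - z)‖ := by congr 1; ring
        _ ≤ _ := norm_add_le _ _
    linarith
  have hn : 0 < ‖1 - z‖ := hD.trans_le hz1n
  have hnw : 0 < ‖1 - w‖ := by linarith
  have hfirst : ‖(M : ℂ) / (1 - w) - (M : ℂ) / (1 - z)‖ ≤ 16 * ‖w - z‖ / D * (M / ‖1 - z‖) := by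
    have hne1 : (1 - w) ≠ 0 := norm_pos_iff.1 hnw
    have hne2 : (1 - z) ≠ 0 := norm_pos_iff.1 hn
    have h2 : (M : ℂ) / (1 - w) - (M : ℂ) / (1 - z) = (M : ℂ) * (w - z) / ((1 - w) * (1 - z)) := by
      field_simp
      ring
    rw [h2, norm_div, norm_mul, norm_mul, Complex.norm_real, Real.norm_of_nonneg hM]
    have h3 : D / 2 ≤ ‖1 - w‖ := by linarith
    calc M * ‖w - z‖ / (‖1 - w‖ * ‖1 - z‖) ≤ M * ‖w - z‖ / (D / 2 * ‖1 - z‖) := by
          apply div_le_div_of_nonneg_left (by positivity) (by positivity)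
          exact mul_le_mul_of_nonneg_right h3 hn.le
      _ = 2 * ‖w - z‖ / D * (M / ‖1 - z‖) := by field_simp
      _ ≤ 16 * ‖w - z‖ / D * (M / ‖1 - z‖) := by
          apply mul_le_mul_of_nonneg_right _ (by positivity)
          apply div_le_div_of_nonneg_right _ hD.le
          linarith [norm_nonneg (w - z)]
  have hblock : ∀ k, ‖gb α w k - gb α z k‖ ≤ 16 * ‖w - z‖ / D * B α z k := by
    intro k
    unfold gb B
    rw [← Finset.sum_sub_distrib, Finset.mul_sum]
    refine (norm_sum_le _ _).trans (Finset.sum_le_sum fun i hi => ?_)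
    have hi' := Finset.mem_range.1 hi
    have hζ := norm_zt (α := α) k i
    have hζE : zt α k i ∈ E α := mem_E.2 (Or.inr ⟨k, i, hi', rfl⟩)
    have h2 := hzD _ hζE
    have hx : 0 < ‖z - zt α k i‖ := hD.trans_le h2
    have h3 := ker_sub_le h0 h1 (dl_pos (α := α) k)
      (arg1_ne hζ (ne_of_notMem hzE hi')) (arg1_re hζ hz1) (arg1_re hζ hw1)
      (by rw [arg1_sub hζ, norm_arg1 hζ]; linarith)
    rw [arg1_sub hζ, norm_arg1 hζ] at h3
    refine h3.trans ?_
    have hb := bd_pos (α := α) (dl_pos (α := α) k) hx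
    calc 16 * (bd α (dl α k) ‖z - zt α k i‖ / ‖z - zt α k i‖) * ‖w - z‖
        ≤ 16 * (bd α (dl α k) ‖z - zt α k i‖ / D) * ‖w - z‖ := by
          apply mul_le_mul_of_nonneg_right _ (norm_nonneg _)
          apply mul_le_mul_of_nonneg_left _ (by norm_num)
          exact div_le_div_of_nonneg_left hb.le hD h2
      _ = _ := by ring
  have hsum : ‖∑' k, gb α w k - ∑' k, gb α z k‖ ≤ 16 * ‖w - z‖ / D * ∑' k, B α z k := by
    rw [← hgw.tsum_sub hgz, ← tsum_mul_left]
    exact tsum_of_norm_bounded (hs.mul_left _).hasSum hblock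
  have h4 : G α M w - G α M z =
      ((M : ℂ) / (1 - w) - (M : ℂ) / (1 - z)) + (∑' k, gb α w k - ∑' k, gb α z k) := by
    unfold G; ring
  rw [h4]
  refine (norm_add_le _ _).trans ?_
  rw [mul_add]
  exact add_le_add hfirst hsum

theorem rpow_sum_le {x y : ℝ} (hx : 0 ≤ x) (hxy : x ≤ 3 * y) (h0 : 0 < α) (h1 : α < 1) :
    x ^ α ≤ 3 * y ^ α := by
  have hy : 0 ≤ y := by linarith
  calc x ^ α ≤ (3 * y) ^ α := Real.rpow_le_rpow hx hxy h0.le
    _ = 3 ^ α * y ^ α := Real.mul_rpow (by norm_num) hy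
    _ ≤ 3 * y ^ α := by
      apply mul_le_mul_of_nonneg_right _ (by positivity)
      calc (3 : ℝ) ^ α ≤ 3 ^ (1 : ℝ) := Real.rpow_le_rpow_of_exponent_le (by norm_num) h1.le
        _ = 3 := by norm_num

include h0 h1 in
/-- Existence of the peaking function, with the Hölder bound on the whole closed disc. -/
theorem exists_peak : ∃ f : ℂ → ℂ, DifferentiableOn ℂ f (Metric.ball 0 1) ∧
    (∃ C : ℝ, 0 ≤ C ∧ ∀ z ∈ Metric.closedBall (0 : ℂ) 1, ∀ w ∈ Metric.closedBall (0 : ℂ) 1,
      ‖f z - f w‖ ≤ C * ‖z - w‖ ^ α) ∧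
    (∀ z ∈ E α, f z = 1) ∧
    ∀ z ∈ Metric.closedBall (0 : ℂ) 1, z ∉ E α → ‖f z‖ < 1 := by
  obtain ⟨M, C, hM, hC, hcore⟩ := core h0 h1
  have hM0 : 0 ≤ M := by linarith
  have hre : ∀ z : ℂ, ‖z‖ ≤ 1 → z ∉ E α → 1 ≤ (G α M z).re := by
    intro z hz1 hz
    have := (hcore z hz1 hz).2.2.2.2
    linarith
  have hG0 : ∀ z : ℂ, ‖z‖ ≤ 1 → z ∉ E α → 0 < ‖G α M z‖ := by
    intro z hz1 hz
    have := hre z hz1 hz
    have := Complex.re_le_norm (G α M z)
    linarith
  refine ⟨F α M, ?_, ⟨3 * C + 3 * C + 48 * C * C, by positivity, ?_⟩, ?_, ?_⟩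
  · -- analyticity
    have hball : ∀ z ∈ Metric.ball (0 : ℂ) 1, z ∉ E α := by
      intro z hz hzE
      have h2 := E_subset hzE
      rw [mem_sphere_zero_iff_norm] at h2
      rw [mem_ball_zero_iff] at hz
      linarith
    have hdG : DifferentiableOn ℂ (G α M) (Metric.ball 0 1) := by
      intro z hz
      rw [mem_ball_zero_iff] at hz
      set ρ := (1 + ‖z‖) / 2 with hρ
      have hρ1 : ρ < 1 := by rw [hρ]; linarith
      have hzρ : z ∈ Metric.ball (0 : ℂ) ρ := by
        rw [mem_ball_zero_iff, hρ]; linarith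
      have hsub : Metric.ball (0 : ℂ) ρ ⊆ Metric.ball 0 1 := Metric.ball_subset_ball hρ1.le
      have hd : DifferentiableOn ℂ (G α M) (Metric.ball 0 ρ) := by
        unfold G
        apply DifferentiableOn.add
        · apply DifferentiableOn.div (differentiableOn_const _)
          · exact (differentiableOn_const _).sub differentiableOn_id
          · intro w hw h2
            have h3 := hsub hw
            rw [mem_ball_zero_iff] at h3
            have h4 : w = 1 := (sub_eq_zero.1 h2).symm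
            rw [h4, norm_one] at h3
            exact lt_irrefl _ h3
        · refine Complex.differentiableOn_tsum_of_summable_norm
            (u := fun k => 2 * (ra α k * (1 - ρ)⁻¹)) (((summable_ra h0 h1).mul_right _).mul_left _)
            ?_ Metric.isOpen_ball ?_
          · intro k
            unfold gb
            apply DifferentiableOn.fun_sum
            intro i hi w hw
            have hw1 := hsub hw
            have hwE := hball w hw1
            rw [mem_ball_zero_iff] at hw1
            have hζ := norm_zt (α := α) k i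
            have h2 := hasDerivAt_ker h0 h1 (dl_pos (α := α) k)
              (arg1_ne hζ (ne_of_notMem hwE (Finset.mem_range.1 hi))) (arg1_re hζ hw1.le)
            have h3 : DifferentiableAt ℂ (fun v => arg1 (zt α k i) v) w := by
              unfold arg1
              fun_prop
            exact (h2.differentiableAt.comp w h3).differentiableWithinAt
          · intro k w hw
            have hw1 := hsub hw
            have hwE := hball w hw1
            have hwρ := hw
            rw [mem_ball_zero_iff] at hw1 hwρ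
            refine (norm_gb_le h0 h1 hw1.le hwE k).trans ?_
            apply mul_le_mul_of_nonneg_left _ (by norm_num)
            unfold B
            have h2 : ∀ i ∈ range (N α k), bd α (dl α k) ‖w - zt α k i‖ ≤
                (dl α k) ^ (1 - α) * (1 - ρ)⁻¹ := by
              intro i _
              have h3 : 1 - ρ ≤ ‖w - zt α k i‖ := by
                have h4 : ‖zt α k i‖ ≤ ‖w - zt α k i‖ + ‖w‖ := by
                  calc ‖zt α k i‖ = ‖w - (w - zt α k i)‖ := by congr 1; ring
                    _ ≤ ‖w‖ + ‖w - zt α k i‖ := norm_sub_le _ _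
                    _ = _ := add_comm _ _
                rw [norm_zt] at h4
                linarith
              have h5 : 0 < ‖w - zt α k i‖ := by linarith
              refine (bd_le_div (dl_pos k) h5).trans ?_
              rw [div_eq_mul_inv]
              apply mul_le_mul_of_nonneg_left _ (Real.rpow_nonneg (dl_pos k).le _)
              exact inv_anti₀ (by linarith) h3
            refine (Finset.sum_le_sum h2).trans ?_
            rw [Finset.sum_const, Finset.card_range, nsmul_eq_mul, ← mul_assoc]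
            apply mul_le_mul_of_nonneg_right (N_mul_dl h0 h1 k)
            rw [inv_nonneg]
            linarith
      exact ((hd z hzρ).differentiableAt (Metric.isOpen_ball.mem_nhds hzρ)).differentiableWithinAt
    have hF : ∀ z ∈ Metric.ball (0 : ℂ) 1, F α M z = 1 - (G α M z)⁻¹ := by
      intro z hz
      unfold F
      rw [if_neg (hball z hz)]
    refine DifferentiableOn.congr ?_ hF
    refine (differentiableOn_const _).sub (hdG.inv fun z hz => ?_)
    have hz' := hz
    rw [mem_ball_zero_iff] at hz'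
    exact norm_pos_iff.1 (hG0 z hz'.le (hball z hz))
  · -- the Hölder estimate
    -- smallness near `E`
    have hsmall : ∀ z : ℂ, ‖z‖ ≤ 1 → ∀ e ∈ E α, ‖F α M z - 1‖ ≤ C * ‖z - e‖ ^ α := by
      intro z hz1 e he
      unfold F
      split_ifs with hz
      · rw [sub_self, norm_zero]; positivity
      · have h2 := (hcore z hz1 hz).2.2.2.1 e he
        have h3 : (1 : ℂ) - (G α M z)⁻¹ - 1 = -(G α M z)⁻¹ := by ring
        rw [h3, norm_neg, norm_inv, inv_le_iff_one_le_mul₀ (hG0 z hz1 hz)]
        linarith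
    -- two points close to `E`
    have hclose : ∀ z : ℂ, ‖z‖ ≤ 1 → ∀ w : ℂ, ‖w‖ ≤ 1 → (∃ e ∈ E α, ‖z - e‖ ≤ 2 * ‖z - w‖) →
        ‖F α M z - F α M w‖ ≤ (3 * C + 3 * C) * ‖z - w‖ ^ α := by
      intro z hz1 w hw1 hze
      obtain ⟨e, he, hze⟩ := hze
      have h2 := hsmall z hz1 e he
      have h3 := hsmall w hw1 e he
      have h4 : ‖w - e‖ ≤ 3 * ‖z - w‖ := by
        calc ‖w - e‖ = ‖(z - e) - (z - w)‖ := by congr 1; ring
          _ ≤ ‖z - e‖ + ‖z - w‖ := norm_sub_le _ _
          _ ≤ _ := by linarith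
      have h5 : ‖z - e‖ ≤ 3 * ‖z - w‖ := by linarith [norm_nonneg (z - w)]
      have h6 := rpow_sum_le (norm_nonneg _) h4 h0 h1
      have h7 := rpow_sum_le (norm_nonneg _) h5 h0 h1
      calc ‖F α M z - F α M w‖ = ‖(F α M z - 1) - (F α M w - 1)‖ := by congr 1; ring
        _ ≤ ‖F α M z - 1‖ + ‖F α M w - 1‖ := norm_sub_le _ _
        _ ≤ C * ‖z - e‖ ^ α + C * ‖w - e‖ ^ α := add_le_add h2 h3
        _ ≤ C * (3 * ‖z - w‖ ^ α) + C * (3 * ‖z - w‖ ^ α) := by
            apply add_le_add
            · exact mul_le_mul_of_nonneg_left h7 hC.le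
            · exact mul_le_mul_of_nonneg_left h6 hC.le
        _ = _ := by ring
    intro z hz w hw
    rw [mem_closedBall_zero_iff] at hz hw
    by_cases hcl : ∃ e ∈ E α, ‖z - e‖ ≤ 2 * ‖z - w‖
    · refine (hclose z hz w hw hcl).trans ?_
      apply mul_le_mul_of_nonneg_right _ (by positivity)
      have : 0 ≤ 48 * C * C := by positivity
      linarith
    · push Not at hcl
      -- the nearest point
      obtain ⟨e, he, hmin⟩ := (isCompact_E (α := α)).exists_isMinOn ⟨1, mem_E.2 (Or.inl rfl)⟩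
        (f := fun e => ‖z - e‖) (by fun_prop)
      have hmin' : ∀ e' ∈ E α, ‖z - e‖ ≤ ‖z - e'‖ := fun e' he' => hmin he'
      have hD := hcl e he
      set D := ‖z - e‖ with hDdef
      have hDpos : 0 < D := by linarith [norm_nonneg (z - w)]
      have hzE : z ∉ E α := by
        intro h
        have := hmin' z h
        rw [sub_self, norm_zero] at this
        linarith
      have hwE : w ∉ E α := by
        intro h
        have := hcl w h
        linarith [norm_nonneg (z - w)]
      obtain ⟨hs, hgz, hB, -, -⟩ := hcore z hz hzE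
      obtain ⟨-, hgw, -, hwe, -⟩ := hcore w hw hwE
      have hr : ‖w - z‖ = ‖z - w‖ := norm_sub_rev _ _
      have h2 := G_sub_le h0 h1 hM0 hz hw hDpos hmin' (by rw [hr]; linarith) hs hgz hgw
      have h3 := hwe e he
      have hGz := hG0 z hz hzE
      have hGw := hG0 w hw hwE
      have h4 : ‖w - e‖ ≤ 3 * D := by
        calc ‖w - e‖ = ‖(z - e) - (z - w)‖ := by congr 1; ring
          _ ≤ ‖z - e‖ + ‖z - w‖ := norm_sub_le _ _
          _ ≤ _ := by linarith
      have h5 := rpow_sum_le (norm_nonneg _) h4 h0 h1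
      have hFz : F α M z = 1 - (G α M z)⁻¹ := by unfold F; rw [if_neg hzE]
      have hFw : F α M w = 1 - (G α M w)⁻¹ := by unfold F; rw [if_neg hwE]
      have hne1 : G α M z ≠ 0 := norm_pos_iff.1 hGz
      have hne2 : G α M w ≠ 0 := norm_pos_iff.1 hGw
      have h6 : F α M z - F α M w = -(G α M w - G α M z) / (G α M z * G α M w) := by
        rw [hFz, hFw]
        field_simp
        ring
      have h7 : ‖F α M z - F α M w‖ = ‖G α M w - G α M z‖ / (‖G α M z‖ * ‖G α M w‖) := by
        rw [h6, norm_div, norm_neg, norm_mul]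
      rw [h7]
      have hDα : 0 < D ^ α := Real.rpow_pos_of_pos hDpos _
      -- `1 / |G w| ≤ 3 C D ^ α`
      have h8 : 1 ≤ C * ‖G α M w‖ * (3 * D ^ α) := by
        refine h3.trans ?_
        apply mul_le_mul_of_nonneg_left h5 (by positivity)
      rcases (norm_nonneg (z - w)).eq_or_lt with hzw | hzw
      · have h9 : ‖G α M w - G α M z‖ = 0 := by
          have : z = w := by
            rw [← sub_eq_zero, ← norm_eq_zero]; exact hzw.symm
          rw [this, sub_self, norm_zero]
        rw [h9, zero_div]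
        positivity
      have h9 : D ^ (α - 1) ≤ ‖z - w‖ ^ (α - 1) :=
        Real.rpow_le_rpow_of_nonpos hzw (by linarith) (by linarith)
      have h10 : D ^ (α - 1) = D ^ α / D := Real.rpow_sub_one hDpos.ne' _
      have h11 : ‖z - w‖ ^ (α - 1) = ‖z - w‖ ^ α / ‖z - w‖ := Real.rpow_sub_one hzw.ne' _
      rw [div_le_iff₀ (by positivity)]
      calc ‖G α M w - G α M z‖ ≤ 16 * ‖w - z‖ / D * (M / ‖1 - z‖ + ∑' k, B α z k) := h2
        _ ≤ 16 * ‖w - z‖ / D * (C * ‖G α M z‖) := mul_le_mul_of_nonneg_left hB (by positivity)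
        _ = 16 * ‖z - w‖ / D * (C * ‖G α M z‖) * 1 := by rw [hr, mul_one]
        _ ≤ 16 * ‖z - w‖ / D * (C * ‖G α M z‖) * (C * ‖G α M w‖ * (3 * D ^ α)) :=
            mul_le_mul_of_nonneg_left h8 (by positivity)
        _ = 48 * C * C * (‖z - w‖ * (D ^ α / D)) * (‖G α M z‖ * ‖G α M w‖) := by ring
        _ ≤ 48 * C * C * (‖z - w‖ * (‖z - w‖ ^ α / ‖z - w‖)) * (‖G α M z‖ * ‖G α M w‖) := by
            apply mul_le_mul_of_nonneg_right _ (by positivity)
            apply mul_le_mul_of_nonneg_left _ (by positivity)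
            apply mul_le_mul_of_nonneg_left _ hzw.le
            rw [← h10, ← h11]
            exact h9
        _ = 48 * C * C * ‖z - w‖ ^ α * (‖G α M z‖ * ‖G α M w‖) := by
            rw [mul_div_cancel₀ _ hzw.ne']
        _ ≤ (3 * C + 3 * C + 48 * C * C) * ‖z - w‖ ^ α * (‖G α M z‖ * ‖G α M w‖) := by
            apply mul_le_mul_of_nonneg_right _ (by positivity)
            apply mul_le_mul_of_nonneg_right _ (by positivity)
            linarith
  · intro z hz
    unfold F
    rw [if_pos hz]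
  · intro z hz hzE
    rw [mem_closedBall_zero_iff] at hz
    have h2 := hre z hz hzE
    have h3 := hG0 z hz hzE
    unfold F
    rw [if_neg hzE]
    have hne : G α M z ≠ 0 := norm_pos_iff.1 h3
    have h4 : 1 - (G α M z)⁻¹ = (G α M z - 1) / G α M z := by field_simp
    rw [h4, norm_div, div_lt_one h3]
    have h5 : ‖G α M z - 1‖ ^ 2 < ‖G α M z‖ ^ 2 := by
      rw [← Complex.normSq_eq_norm_sq, ← Complex.normSq_eq_norm_sq, Complex.normSq_apply,
        Complex.normSq_apply]
      simp only [Complex.sub_re, Complex.sub_im, Complex.one_re, Complex.one_im, sub_zero]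
      nlinarith
    exact lt_of_pow_lt_pow_left₀ 2 (norm_nonneg _) h5

/-! ### the integral -/

open MeasureTheory

theorem pt_inj {θ φ : ℝ} (h : |θ - φ| ≤ 1) (heq : pt θ = pt φ) : θ = φ := by
  have h2 := norm_pt_sub_ge h
  rw [heq, sub_self, norm_zero] at h2
  have h3 := abs_nonneg (θ - φ)
  have h4 : |θ - φ| = 0 := by linarith
  exact sub_eq_zero.1 (abs_eq_zero.1 h4)

/-- the bad parameters of a block form a null set -/
theorem ae_notMem (k : ℕ) : ∀ᵐ θ : ℝ, θ ∈ Set.Ioo (a k) (2 * a k) → pt θ ∉ E α := by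
  have hc : (Set.range (fun p : ℕ × ℕ => th α p.1 p.2)).Countable := Set.countable_range _
  have h2 := hc.ae_notMem (volume : Measure ℝ)
  filter_upwards [h2] with θ hθ hmem hE
  have ha := a_pos k
  have hq := a_le_quarter k
  rcases mem_E.1 hE with h | ⟨l, i, hi, h⟩
  · rw [← pt_zero] at h
    have h3 : |θ - 0| ≤ 1 := by
      rw [sub_zero, abs_of_pos (by linarith [hmem.1])]
      linarith [hmem.2]
    have := pt_inj h3 h
    linarith [hmem.1]
  · have h3 : |θ - th α l i| ≤ 1 := by
      have h4 := th_ge (α := α) l i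
      have h5 := th_le hi
      have h6 := a_pos l
      have h7 := a_le_quarter l
      rw [abs_le]
      constructor <;> linarith [hmem.1, hmem.2]
    exact hθ ⟨(l, i), (pt_inj h3 h).symm⟩

theorem infDist_le {k : ℕ} {θ : ℝ} (hθ : θ ∈ Set.Ioo (a k) (2 * a k)) :
    Metric.infDist (pt θ) (E α) ≤ sp α k := by
  have hs := sp_pos (α := α) k
  set i := ⌊(θ - a k) / sp α k⌋₊ with hi
  have hpos : 0 ≤ (θ - a k) / sp α k := div_nonneg (by linarith [hθ.1]) hs.le
  have h2 : (i : ℝ) ≤ (θ - a k) / sp α k := Nat.floor_le hpos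
  have h3 : (θ - a k) / sp α k < i + 1 := Nat.lt_floor_add_one _
  rw [le_div_iff₀ hs] at h2
  rw [div_lt_iff₀ hs] at h3
  have hiN : i < N α k := by
    have h4 : (i : ℝ) * sp α k < N α k * sp α k := by
      rw [N_mul_sp]; linarith [hθ.2]
    have h5 : (i : ℝ) < N α k := lt_of_mul_lt_mul_right h4 hs.le
    exact_mod_cast h5
  have hmem : zt α k i ∈ E α := mem_E.2 (Or.inr ⟨k, i, hiN, rfl⟩)
  refine (Metric.infDist_le_dist_of_mem hmem).trans ?_
  rw [dist_eq_norm]
  refine (norm_pt_sub_le _ _).trans ?_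
  unfold th
  rw [abs_le]
  constructor <;> linarith

include h0 in
theorem block_integral (k : ℕ) : ENNReal.ofReal (1 / ((k : ℝ) + 1)) ≤
    ∫⁻ θ in Set.Ioo (a k) (2 * a k), ENNReal.ofReal (Metric.infDist (pt θ) (E α) ^ (-α)) := by
  have hs := sp_pos (α := α) k
  have ha := a_pos k
  have h2 : ∫⁻ _ in Set.Ioo (a k) (2 * a k), ENNReal.ofReal ((sp α k) ^ (-α)) ≤
      ∫⁻ θ in Set.Ioo (a k) (2 * a k), ENNReal.ofReal (Metric.infDist (pt θ) (E α) ^ (-α)) := by
    apply lintegral_mono_ae
    rw [ae_restrict_iff' measurableSet_Ioo]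
    filter_upwards [ae_notMem (α := α) k] with θ hθ hmem
    apply ENNReal.ofReal_le_ofReal
    have h3 := hθ hmem
    have h4 : 0 < Metric.infDist (pt θ) (E α) :=
      (isClosed_E.notMem_iff_infDist_pos ⟨1, mem_E.2 (Or.inl rfl)⟩).1 h3
    exact Real.rpow_le_rpow_of_nonpos h4 (infDist_le hmem) (by linarith)
  refine le_trans ?_ h2
  rw [setLIntegral_const, Real.volume_Ioo, ← ENNReal.ofReal_mul (by positivity)]
  apply ENNReal.ofReal_le_ofReal
  have := block_ge h0 k
  calc 1 / ((k : ℝ) + 1) ≤ a k * (sp α k) ^ (-α) := this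
    _ = _ := by ring

include h0 in
theorem integral_eq_top :
    ∫⁻ θ in Set.Ioc (-Real.pi) Real.pi, ENNReal.ofReal (Metric.infDist (pt θ) (E α) ^ (-α)) = ⊤ := by
  have hsub : (⋃ k, Set.Ioo (a k) (2 * a k)) ⊆ Set.Ioc (-Real.pi) Real.pi := by
    intro θ hθ
    obtain ⟨k, hk⟩ := Set.mem_iUnion.1 hθ
    have ha := a_pos k
    have hq := a_le_quarter k
    have hpi := Real.pi_gt_three
    constructor <;> linarith [hk.1, hk.2]
  have hdisj : Pairwise (Function.onFun Disjoint fun k => Set.Ioo (a k) (2 * a k)) := by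
    intro k l hkl
    simp only [Function.onFun]
    rw [Set.disjoint_left]
    intro θ hk hl
    rcases Nat.lt_or_gt_of_ne hkl with h | h
    · have := a_lt h
      linarith [hk.1, hl.2, a_pos k]
    · have := a_lt h
      linarith [hk.2, hl.1, a_pos l]
  have h2 : ∑' k : ℕ, ENNReal.ofReal (1 / ((k : ℝ) + 1)) ≤
      ∫⁻ θ in Set.Ioc (-Real.pi) Real.pi,
        ENNReal.ofReal (Metric.infDist (pt θ) (E α) ^ (-α)) := by
    refine le_trans ?_ (lintegral_mono_set hsub)
    rw [lintegral_iUnion (fun _ => measurableSet_Ioo) hdisj]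
    exact ENNReal.tsum_le_tsum fun k => block_integral h0 k
  have h3 : ∑' k : ℕ, ENNReal.ofReal (1 / ((k : ℝ) + 1)) = ⊤ := by
    by_contra hcon
    have h4 := ENNReal.summable_toReal hcon
    have h5 : Summable fun k : ℕ => 1 / ((k : ℝ) + 1) := by
      refine h4.congr fun k => ?_
      rw [ENNReal.toReal_ofReal (by positivity)]
    have h6 : Summable fun k : ℕ => 1 / (k : ℝ) := by
      rw [← summable_nat_add_iff 1]
      refine h5.congr fun k => ?_
      push_cast
      rfl
    exact Real.not_summable_one_div_natCast h6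
  rw [h3] at h2
  exact top_le_iff.1 h2

end Pool.Agent.L7h52.Peak
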