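import Pool.Agent.L7h52.Peak.Params

/-!
The points of the construction and the main estimate of the sum.
-/

set_option autoImplicit false

namespace Pool.Agent.L7h52.Peak

open Finset

/-- the point of the circle with angle `θ` -/
noncomputable def pt (θ : ℝ) : ℂ := Complex.exp (Complex.I * θ)

theorem norm_pt (θ : ℝ) : ‖pt θ‖ = 1 := Complex.norm_exp_I_mul_ofReal θ

theorem norm_pt_sub (θ φ : ℝ) : ‖pt θ - pt φ‖ = ‖Complex.exp (Complex.I * ((θ - φ : ℝ) : ℂ)) - 1‖ := by
  have h : pt θ - pt φ = pt φ * (Complex.exp (Complex.I * ((θ - φ : ℝ) : ℂ)) - 1) := by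
    unfold pt
    rw [mul_sub, ← Complex.exp_add, mul_one]
    congr 2
    push_cast
    ring
  rw [h, norm_mul, norm_pt, one_mul]

theorem norm_pt_sub_le (θ φ : ℝ) : ‖pt θ - pt φ‖ ≤ |θ - φ| := by
  rw [norm_pt_sub]
  exact Real.norm_exp_I_mul_ofReal_sub_one_le

theorem norm_pt_sub_ge {θ φ : ℝ} (h : |θ - φ| ≤ 1) : |θ - φ| / 2 ≤ ‖pt θ - pt φ‖ := by
  rw [norm_pt_sub, Complex.norm_exp_I_mul_ofReal_sub_one, Real.norm_eq_abs]
  set x := θ - φ with hx
  have hpi := Real.pi_gt_three
  have hpi4 := Real.pi_le_four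
  have h2 : 2 / Real.pi * |x / 2| ≤ |Real.sin (x / 2)| := by
    apply Real.mul_abs_le_abs_sin
    rw [abs_div, abs_two]
    linarith
  rw [abs_mul, abs_two]
  rw [abs_div, abs_two] at h2
  have h3 : (1 : ℝ) / 2 ≤ 2 / Real.pi := by
    rw [div_le_div_iff₀ (by norm_num) (by linarith)]
    linarith
  have h4 : 1 / 2 * (|x| / 2) ≤ 2 / Real.pi * (|x| / 2) :=
    mul_le_mul_of_nonneg_right h3 (by positivity)
  linarith

theorem pt_zero : pt 0 = 1 := by simp [pt]

/-- the angles of the points of the `k`-th block -/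
noncomputable def th (α : ℝ) (k i : ℕ) : ℝ := a k + i * sp α k

/-- the points of the `k`-th block -/
noncomputable def zt (α : ℝ) (k i : ℕ) : ℂ := pt (th α k i)

variable {α : ℝ} (h0 : 0 < α) (h1 : α < 1)

theorem norm_zt (k i : ℕ) : ‖zt α k i‖ = 1 := norm_pt _

theorem N_mul_sp (k : ℕ) : N α k * sp α k = a k := by
  unfold sp
  rw [mul_div_cancel₀]
  exact (N_pos' k).ne'

theorem th_ge (k i : ℕ) : a k ≤ th α k i := by
  unfold th
  have := (sp_pos (α := α) k).le
  have : (0 : ℝ) ≤ i * sp α k := by positivity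
  linarith

theorem th_le {k i : ℕ} (hi : i < N α k) : th α k i ≤ 2 * a k := by
  unfold th
  have hs := (sp_pos (α := α) k).le
  have h2 : (i : ℝ) ≤ N α k := by exact_mod_cast hi.le
  have h3 := mul_le_mul_of_nonneg_right h2 hs
  rw [N_mul_sp] at h3
  linarith

theorem zt_sub_same {k i j : ℕ} (hi : i < N α k) (hj : j < N α k) :
    |(i : ℝ) - j| * sp α k / 2 ≤ ‖zt α k i - zt α k j‖ := by
  have h2 : |th α k i - th α k j| = |(i : ℝ) - j| * sp α k := by
    unfold th
    rw [← abs_of_pos (sp_pos (α := α) k), ← abs_mul, abs_of_pos (sp_pos (α := α) k)]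
    congr 1
    ring
  have h3 : |th α k i - th α k j| ≤ 1 := by
    rw [abs_le]
    have h4 := th_ge (α := α) k i
    have h5 := th_le hi
    have h6 := th_ge (α := α) k j
    have h7 := th_le hj
    have h8 := a_le_quarter k
    constructor <;> linarith
  have := norm_pt_sub_ge h3
  rw [h2] at this
  exact this

theorem zt_sub_diff {k l i j : ℕ} (hkl : k < l) (hi : i < N α k) (hj : j < N α l) :
    a k / 4 ≤ ‖zt α k i - zt α l j‖ := by
  have h4 := th_ge (α := α) k i
  have h5 := th_le hi
  have h6 := th_ge (α := α) l j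
  have h7 := th_le hj
  have h8 := a_le_quarter k
  have h9 := a_lt hkl
  have h10 := a_pos k
  have h11 := a_pos l
  have h3 : |th α k i - th α l j| ≤ 1 := by
    rw [abs_le]
    constructor <;> linarith
  have h12 := norm_pt_sub_ge h3
  have h13 : a k / 2 ≤ |th α k i - th α l j| := by
    refine le_trans ?_ (le_abs_self _)
    linarith
  unfold zt
  linarith

theorem one_sub_zt_ge {k i : ℕ} (hi : i < N α k) : a k / 2 ≤ ‖1 - zt α k i‖ := by
  have h4 := th_ge (α := α) k i
  have h5 := th_le hi
  have h8 := a_le_quarter k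
  have h10 := a_pos k
  have h3 : |(0 : ℝ) - th α k i| ≤ 1 := by
    rw [abs_le]
    constructor <;> linarith
  have h12 := norm_pt_sub_ge h3
  have h13 : a k ≤ |(0 : ℝ) - th α k i| := by
    rw [zero_sub, abs_neg]
    exact h4.trans (le_abs_self _)
  rw [pt_zero] at h12
  unfold zt
  linarith

theorem one_sub_zt_le {k i : ℕ} (hi : i < N α k) : ‖1 - zt α k i‖ ≤ 2 * a k := by
  have h4 := th_ge (α := α) k i
  have h5 := th_le hi
  have h10 := a_pos k
  have h12 := norm_pt_sub_le 0 (th α k i)
  rw [pt_zero, zero_sub, abs_neg, abs_of_nonneg (by linarith)] at h12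
  exact h12.trans h5

/-! ### sums of reciprocals -/

theorem sum_left (n m : ℕ) (h : m ≤ n) :
    ∑ i ∈ range m, ((m : ℝ) - i)⁻¹ ≤ H n := by
  have h2 : ∑ i ∈ range m, ((m : ℝ) - i)⁻¹ = H m := by
    unfold H
    rw [← Finset.sum_range_reflect]
    refine Finset.sum_congr rfl fun i hi => ?_
    have hi' := Finset.mem_range.1 hi
    congr 1
    have : ((m - 1 - i : ℕ) : ℝ) = (m : ℝ) - 1 - i := by
      rw [Nat.sub_sub, Nat.cast_sub (by omega)]
      push_cast
      ring
    rw [this]
    ring
  rw [h2]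
  unfold H
  refine Finset.sum_le_sum_of_subset_of_nonneg (Finset.range_subset_range.2 h) ?_
  intro i _ _
  positivity

theorem sum_right (n m : ℕ) :
    ∑ i ∈ range n, ((i : ℝ) + 1)⁻¹ ≤ H (n + m) := by
  unfold H
  refine Finset.sum_le_sum_of_subset_of_nonneg (Finset.range_subset_range.2 (by omega)) ?_
  intro i _ _
  positivity

theorem sum_abs (n m : ℕ) (h : m < n) :
    ∑ i ∈ (range n).erase m, |(i : ℝ) - m|⁻¹ ≤ 2 * H n := by
  obtain ⟨p, rfl⟩ : ∃ p, n = m + (1 + p) := ⟨n - m - 1, by omega⟩
  have h2 : (range (m + (1 + p))).erase m =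
      range m ∪ (range p).image (fun i => m + 1 + i) := by
    ext x
    simp only [mem_erase, mem_range, mem_union, mem_image]
    constructor
    · rintro ⟨h3, h4⟩
      rcases Nat.lt_or_gt_of_ne h3 with h5 | h5
      · exact Or.inl h5
      · exact Or.inr ⟨x - m - 1, by omega, by omega⟩
    · rintro (h3 | ⟨i, hi, rfl⟩)
      · omega
      · omega
  have hdisj : Disjoint (range m) ((range p).image (fun i => m + 1 + i)) := by
    rw [Finset.disjoint_left]
    intro x hx hx2
    simp only [mem_range, mem_image] at hx hx2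
    obtain ⟨i, _, rfl⟩ := hx2
    omega
  rw [h2, Finset.sum_union hdisj, Finset.sum_image (fun i _ j _ hij => by simpa using hij), two_mul]
  apply add_le_add
  · refine le_trans (le_of_eq ?_) (sum_left (m + (1 + p)) m (by omega))
    refine Finset.sum_congr rfl fun i hi => ?_
    have hi' : (i : ℝ) < m := by exact_mod_cast Finset.mem_range.1 hi
    rw [abs_of_neg (by linarith)]
    congr 1
    ring
  · refine le_trans (le_of_eq ?_) (sum_right p (m + 1) |>.trans (le_of_eq (by congr 1; omega)))
    refine Finset.sum_congr rfl fun i _ => ?_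
    have : ((m + 1 + i : ℕ) : ℝ) - m = (i : ℝ) + 1 := by push_cast; ring
    rw [this, abs_of_pos (by positivity)]

/-! ### the block sums -/

/-- the sum of the bounds over the points of the block which are not too close to `z` -/
noncomputable def K (α : ℝ) (z : ℂ) (k : ℕ) : ℝ :=
  ∑ i ∈ range (N α k), if dl α k ≤ ‖z - zt α k i‖ then bd α (dl α k) ‖z - zt α k i‖ else 0

theorem K_nonneg (z : ℂ) (k : ℕ) : 0 ≤ K α z k := by
  unfold K
  refine Finset.sum_nonneg fun i _ => ?_
  split_ifs with h
  · exact (bd_pos (dl_pos k) ((dl_pos k).trans_le h)).le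
  · exact le_rfl

include h0 h1 in
theorem a_mul_bd (k : ℕ) {x : ℝ} (hx : 0 < x) : a k * bd α (dl α k) x ≤ 16 * dl α k / x := by
  have h2 := bd_le_div (α := α) (dl_pos (α := α) k) hx
  calc a k * bd α (dl α k) x ≤ a k * ((dl α k) ^ (1 - α) / x) :=
        mul_le_mul_of_nonneg_left h2 (a_pos k).le
    _ = (a k * (dl α k) ^ (1 - α)) / x := by ring
    _ ≤ _ := div_le_div_of_nonneg_right (a_mul_dl h0 h1 k) hx.le

include h0 h1 in
/-- the universal bound for a block -/
theorem a_mul_K (z : ℂ) (k : ℕ) : a k * K α z k ≤ 16 + 8 * (ra α k * H (N α k)) := by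
  have hN := N_pos (α := α) k
  have hd := dl_pos (α := α) k
  have hs := sp_pos (α := α) k
  obtain ⟨m, hm, hmin⟩ := Finset.exists_min_image (range (N α k)) (fun i => ‖z - zt α k i‖)
    ⟨0, Finset.mem_range.2 hN⟩
  unfold K
  rw [← Finset.add_sum_erase _ _ hm, mul_add, Finset.mul_sum]
  apply add_le_add
  · split_ifs with h
    · refine (a_mul_bd h0 h1 k (hd.trans_le h)).trans ?_
      rw [div_le_iff₀ (hd.trans_le h)]
      linarith
    · simp
  · have h2 : ∀ i ∈ (range (N α k)).erase m,
        a k * (if dl α k ≤ ‖z - zt α k i‖ then bd α (dl α k) ‖z - zt α k i‖ else 0) ≤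
        64 * dl α k / sp α k * |(i : ℝ) - m|⁻¹ := by
      intro i hi
      have hi1 := Finset.mem_of_mem_erase hi
      have him := Finset.ne_of_mem_erase hi
      have him' : 0 < |(i : ℝ) - m| := by
        rw [abs_pos, sub_ne_zero]
        exact_mod_cast him
      split_ifs with h
      · refine (a_mul_bd h0 h1 k (hd.trans_le h)).trans ?_
        have h3 := zt_sub_same (Finset.mem_range.1 hi1) (Finset.mem_range.1 hm)
        have h4 := hmin i hi1
        have h5 : ‖zt α k i - zt α k m‖ ≤ ‖z - zt α k i‖ + ‖z - zt α k m‖ := by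
          calc ‖zt α k i - zt α k m‖ = ‖(z - zt α k m) - (z - zt α k i)‖ := by congr 1; ring
            _ ≤ ‖z - zt α k m‖ + ‖z - zt α k i‖ := norm_sub_le _ _
            _ = _ := add_comm _ _
        have h6 : |(i : ℝ) - m| * sp α k / 4 ≤ ‖z - zt α k i‖ := by
          linarith
        have h7 : 0 < |(i : ℝ) - m| * sp α k / 4 := by positivity
        calc 16 * dl α k / ‖z - zt α k i‖ ≤ 16 * dl α k / (|(i : ℝ) - m| * sp α k / 4) :=
              div_le_div_of_nonneg_left (by positivity) h7 h6
          _ = _ := by field_simp; ring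
      · rw [mul_zero]
        positivity
    refine (Finset.sum_le_sum h2).trans ?_
    rw [← Finset.mul_sum]
    have h3 := sum_abs _ _ (Finset.mem_range.1 hm)
    calc 64 * dl α k / sp α k * ∑ i ∈ (range (N α k)).erase m, |(i : ℝ) - m|⁻¹
        ≤ 64 * dl α k / sp α k * (2 * H (N α k)) :=
          mul_le_mul_of_nonneg_left h3 (by positivity)
      _ = 8 * (ra α k * H (N α k)) := by
          rw [dl_eq]
          field_simp
          ring

include h0 h1 in
/-- the bound for a far block -/
theorem a_mul_K_far (z : ℂ) (k : ℕ) (hfar : ∀ i < N α k, a k / 16 ≤ ‖z - zt α k i‖) :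
    a k * K α z k ≤ 16 * ra α k := by
  have hd := dl_pos (α := α) k
  have ha := a_pos k
  unfold K
  rw [Finset.mul_sum]
  have h2 : ∀ i ∈ range (N α k),
      a k * (if dl α k ≤ ‖z - zt α k i‖ then bd α (dl α k) ‖z - zt α k i‖ else 0) ≤
      16 * (dl α k) ^ (1 - α) := by
    intro i hi
    have h3 := hfar i (Finset.mem_range.1 hi)
    split_ifs with h
    · have hx := hd.trans_le h
      have h4 := bd_le_div (α := α) hd hx
      have h5 : (dl α k) ^ (1 - α) / ‖z - zt α k i‖ ≤ (dl α k) ^ (1 - α) / (a k / 16) :=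
        div_le_div_of_nonneg_left (by positivity) (by positivity) h3
      calc a k * bd α (dl α k) ‖z - zt α k i‖ ≤ a k * ((dl α k) ^ (1 - α) / (a k / 16)) :=
            mul_le_mul_of_nonneg_left (h4.trans h5) ha.le
        _ = _ := by field_simp
    · rw [mul_zero]
      positivity
  refine (Finset.sum_le_sum h2).trans ?_
  rw [Finset.sum_const, Finset.card_range, nsmul_eq_mul]
  have := N_mul_dl h0 h1 k
  linarith

theorem dist_mul_bd {δ x : ℝ} (hδ : 0 < δ) (hx : 0 < x) : x * bd α δ x ≤ δ ^ (1 - α) := by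
  have := bd_le_div (α := α) hδ hx
  rw [le_div_iff₀ hx] at this
  linarith

include h0 h1 in
/-- passing to the distance from `1` -/
theorem one_sub_mul_K (z : ℂ) (k : ℕ) :
    ‖1 - z‖ * K α z k ≤ 2 * (a k * K α z k) + ra α k := by
  have hd := dl_pos (α := α) k
  have ha := a_pos k
  have h2 : ∀ i ∈ range (N α k),
      ‖1 - z‖ * (if dl α k ≤ ‖z - zt α k i‖ then bd α (dl α k) ‖z - zt α k i‖ else 0) ≤
      2 * (a k * (if dl α k ≤ ‖z - zt α k i‖ then bd α (dl α k) ‖z - zt α k i‖ else 0)) +
        (dl α k) ^ (1 - α) := by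
    intro i hi
    split_ifs with h
    · have hx := hd.trans_le h
      have h3 := dist_mul_bd (α := α) hd hx
      have h4 := one_sub_zt_le (Finset.mem_range.1 hi)
      have h5 : ‖1 - z‖ ≤ ‖1 - zt α k i‖ + ‖z - zt α k i‖ := by
        calc ‖1 - z‖ = ‖(1 - zt α k i) - (z - zt α k i)‖ := by congr 1; ring
          _ ≤ _ := norm_sub_le _ _
      have hb := bd_pos (α := α) hd hx
      nlinarith
    · simp only [mul_zero, zero_add]
      positivity
  have h3 := Finset.sum_le_sum h2
  rw [← Finset.mul_sum, Finset.sum_add_distrib, ← Finset.mul_sum, ← Finset.mul_sum,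
    Finset.sum_const, Finset.card_range, nsmul_eq_mul] at h3
  have := N_mul_dl h0 h1 k
  unfold K
  linarith

include h0 h1 in
/-- The main estimate. -/
theorem exists_bound : ∃ A : ℝ, 0 ≤ A ∧ ∀ z : ℂ, (Summable fun k => ‖1 - z‖ * K α z k) ∧
    ∑' k, ‖1 - z‖ * K α z k ≤ A := by
  obtain ⟨C, hC0, hC⟩ := exists_ra_H h0 h1
  have hsum := summable_ra h0 h1
  have hra0 : 0 ≤ ∑' k, ra α k := tsum_nonneg fun k => (ra_pos k).le
  refine ⟨33 * ∑' k, ra α k + (32 + 16 * C), by positivity, ?_⟩
  intro z
  have key : ∃ v : ℕ → ℝ, Summable v ∧ ∑' k, v k ≤ 32 + 16 * C ∧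
      ∀ k, ‖1 - z‖ * K α z k ≤ 33 * ra α k + v k := by
    by_cases hz : ∃ k, ∃ i < N α k, ‖z - zt α k i‖ < a k / 16
    · obtain ⟨k, i, hi, hki⟩ := hz
      refine ⟨fun l => if l = k then 32 + 16 * C else 0, ?_, ?_, ?_⟩
      · apply summable_of_ne_finset_zero (s := {k})
        intro l hl
        rw [Finset.mem_singleton] at hl
        simp [hl]
      · rw [tsum_ite_eq]
      · intro l
        by_cases hl : l = k
        · subst hl
          have h2 := a_mul_K h0 h1 z l
          have h3 := one_sub_mul_K h0 h1 z l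
          have h4 := hC l
          have h5 := ra_pos (α := α) l
          simp only [if_true]
          linarith
        · have hfar : ∀ j < N α l, a l / 16 ≤ ‖z - zt α l j‖ := by
            intro j hj
            by_contra hcon
            push Not at hcon
            have hak := a_pos k
            have hal := a_pos l
            rcases Nat.lt_or_gt_of_ne hl with h | h
            · have h2 := zt_sub_diff h hj hi
              have h3 : ‖zt α l j - zt α k i‖ ≤ ‖z - zt α k i‖ + ‖z - zt α l j‖ := by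
                calc ‖zt α l j - zt α k i‖ = ‖(z - zt α k i) - (z - zt α l j)‖ := by
                      congr 1; ring
                  _ ≤ _ := norm_sub_le _ _
              have h4 := a_lt h
              linarith
            · have h2 := zt_sub_diff h hi hj
              have h3 : ‖zt α k i - zt α l j‖ ≤ ‖z - zt α l j‖ + ‖z - zt α k i‖ := by
                calc ‖zt α k i - zt α l j‖ = ‖(z - zt α l j) - (z - zt α k i)‖ := by
                      congr 1; ring
                  _ ≤ _ := norm_sub_le _ _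
              have h4 := a_lt h
              linarith
          have h2 := a_mul_K_far h0 h1 z l hfar
          have h3 := one_sub_mul_K h0 h1 z l
          simp only [hl, if_false]
          linarith
    · push Not at hz
      refine ⟨fun _ => 0, summable_zero, ?_, ?_⟩
      · rw [tsum_zero]; positivity
      · intro l
        have h2 := a_mul_K_far h0 h1 z l (hz l)
        have h3 := one_sub_mul_K h0 h1 z l
        linarith
  obtain ⟨v, hv1, hv2, hv3⟩ := key
  have hs2 : Summable fun k => 33 * ra α k + v k := (hsum.mul_left 33).add hv1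
  have hs1 : Summable fun k => ‖1 - z‖ * K α z k :=
    Summable.of_nonneg_of_le (fun k => mul_nonneg (norm_nonneg _) (K_nonneg z k)) hv3 hs2
  refine ⟨hs1, ?_⟩
  calc ∑' k, ‖1 - z‖ * K α z k ≤ ∑' k, (33 * ra α k + v k) := hs1.tsum_le_tsum hv3 hs2
    _ = 33 * ∑' k, ra α k + ∑' k, v k := by
        rw [(hsum.mul_left 33).tsum_add hv1, tsum_mul_left]
    _ ≤ _ := by linarith

end Pool.Agent.L7h52.Peak
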