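import Mathlib

/-!
The kernel `1 / (s ^ α + δ ^ (α - 1) s)` on the closed right half plane.
-/

set_option autoImplicit false

namespace Pool.Agent.L7h52.Peak

open Complex

theorem re_cpow {s : ℂ} (hs : s ≠ 0) (β : ℝ) :
    (s ^ (β : ℂ)).re = ‖s‖ ^ β * Real.cos (β * arg s) := by
  rw [cpow_def_of_ne_zero hs, exp_re]
  have h1 : (log s * β).re = Real.log ‖s‖ * β := by simp [log_re]
  have h2 : (log s * β).im = β * arg s := by simp [log_im, mul_comm]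
  rw [h1, h2, Real.rpow_def_of_pos (norm_pos_iff.2 hs)]

theorem cos_arg_ge {s : ℂ} (hs : 0 ≤ s.re) {β : ℝ} (hβ : |β| ≤ 1) :
    Real.cos (|β| * (Real.pi / 2)) ≤ Real.cos (β * arg s) := by
  rw [← Real.cos_abs (β * arg s), abs_mul]
  have h := Complex.abs_arg_le_pi_div_two_iff.2 hs
  have hp := Real.pi_pos
  apply Real.cos_le_cos_of_nonneg_of_le_pi
  · positivity
  · nlinarith [abs_nonneg β]
  · exact mul_le_mul_of_nonneg_left h (abs_nonneg _)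

theorem cos_nonneg_aux {β : ℝ} (hβ : |β| ≤ 1) : 0 ≤ Real.cos (|β| * (Real.pi / 2)) := by
  have hp := Real.pi_pos
  apply Real.cos_nonneg_of_mem_Icc
  constructor
  · nlinarith [abs_nonneg β]
  · nlinarith [abs_nonneg β]

theorem re_cpow_nonneg {s : ℂ} (hs0 : s ≠ 0) (hs : 0 ≤ s.re) {β : ℝ} (hβ : |β| ≤ 1) :
    0 ≤ (s ^ (β : ℂ)).re := by
  rw [re_cpow hs0]
  exact mul_nonneg (by positivity) ((cos_nonneg_aux hβ).trans (cos_arg_ge hs hβ))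

theorem re_cpow_ge {s : ℂ} (hs0 : s ≠ 0) (hs : 0 ≤ s.re) {α : ℝ} (h0 : 0 < α) (h1 : α < 1) :
    Real.cos (α * (Real.pi / 2)) * ‖s‖ ^ α ≤ (s ^ (α : ℂ)).re := by
  rw [re_cpow hs0, mul_comm]
  have hα : |α| ≤ 1 := by rw [abs_of_pos h0]; exact h1.le
  have := cos_arg_ge hs hα
  rw [abs_of_pos h0] at this
  exact mul_le_mul_of_nonneg_left this (by positivity)

theorem re_cpow_mul_conj {s : ℂ} (hs0 : s ≠ 0) (hs : 0 ≤ s.re) {α : ℝ} (h0 : 0 < α) (h1 : α < 1) :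
    0 ≤ (s ^ (α : ℂ) * (starRingEnd ℂ) s).re := by
  have h2 : (starRingEnd ℂ) s = (normSq s : ℂ) * s⁻¹ := by
    rw [Complex.normSq_eq_conj_mul_self, mul_assoc, mul_inv_cancel₀ hs0, mul_one]
  have h3 : s ^ (α : ℂ) * s⁻¹ = s ^ ((α - 1 : ℝ) : ℂ) := by
    push_cast
    rw [Complex.cpow_sub _ _ hs0, cpow_one, div_eq_mul_inv]
  have h4 : s ^ (α : ℂ) * (starRingEnd ℂ) s = (normSq s : ℂ) * s ^ ((α - 1 : ℝ) : ℂ) := by
    rw [h2, ← h3]; ring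
  rw [h4, re_ofReal_mul]
  refine mul_nonneg (normSq_nonneg _) (re_cpow_nonneg hs0 hs ?_)
  rw [abs_le]
  constructor <;> linarith

/-- the denominator -/
noncomputable def den (α δ : ℝ) (s : ℂ) : ℂ := s ^ (α : ℂ) + ((δ ^ (α - 1) : ℝ) : ℂ) * s

/-- the kernel -/
noncomputable def ker (α δ : ℝ) (s : ℂ) : ℂ := (den α δ s)⁻¹

/-- its size -/
noncomputable def bd (α δ x : ℝ) : ℝ := (x ^ α + δ ^ (α - 1) * x)⁻¹

section

variable {α δ : ℝ} (h0 : 0 < α) (h1 : α < 1) (hδ : 0 < δ)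

include hδ in
theorem bd_den_pos {x : ℝ} (hx : 0 < x) : 0 < x ^ α + δ ^ (α - 1) * x := by
  have := Real.rpow_pos_of_pos hx α
  have := Real.rpow_pos_of_pos hδ (α - 1)
  positivity

include hδ in
theorem bd_pos {x : ℝ} (hx : 0 < x) : 0 < bd α δ x := inv_pos.2 (bd_den_pos hδ hx)

include hδ in
theorem bd_le_rpow {x : ℝ} (hx : 0 < x) : bd α δ x ≤ x ^ (-α) := by
  unfold bd
  rw [Real.rpow_neg hx.le]
  apply inv_anti₀ (Real.rpow_pos_of_pos hx α)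
  have := Real.rpow_pos_of_pos hδ (α - 1)
  nlinarith [mul_pos this hx]

include hδ in
theorem bd_le_div {x : ℝ} (hx : 0 < x) : bd α δ x ≤ δ ^ (1 - α) / x := by
  have h2 : δ ^ (1 - α) / x = (δ ^ (α - 1) * x)⁻¹ := by
    rw [mul_inv, ← Real.rpow_neg hδ.le, neg_sub, div_eq_mul_inv]
  rw [h2]
  unfold bd
  have := Real.rpow_pos_of_pos hδ (α - 1)
  apply inv_anti₀ (mul_pos this hx)
  have := Real.rpow_pos_of_pos hx α
  linarith

include h1 hδ in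
theorem bd_ge {x : ℝ} (hx : 0 < x) (hxδ : x ≤ δ) : x ^ (-α) / 2 ≤ bd α δ x := by
  have h2 : δ ^ (α - 1) * x ≤ x ^ α := by
    have h3 : δ ^ (α - 1) ≤ x ^ (α - 1) :=
      Real.rpow_le_rpow_of_nonpos hx hxδ (by linarith)
    calc δ ^ (α - 1) * x ≤ x ^ (α - 1) * x := mul_le_mul_of_nonneg_right h3 hx.le
      _ = x ^ α := by
        rw [Real.rpow_sub_one hx.ne']
        field_simp
  unfold bd
  have hp := Real.rpow_pos_of_pos hx α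
  have h4 : x ^ (-α) / 2 = (2 * x ^ α)⁻¹ := by
    rw [Real.rpow_neg hx.le, mul_inv]; ring
  rw [h4]
  apply inv_anti₀ (bd_den_pos hδ hx)
  linarith

include h0 h1 hδ in
theorem den_norm_sq {s : ℂ} (hs0 : s ≠ 0) (hs : 0 ≤ s.re) :
    (‖s‖ ^ α) ^ 2 + (δ ^ (α - 1) * ‖s‖) ^ 2 ≤ ‖den α δ s‖ ^ 2 := by
  have hd := Real.rpow_pos_of_pos hδ (α - 1)
  have h2 : ‖den α δ s‖ ^ 2 = normSq (den α δ s) := (Complex.normSq_eq_norm_sq _).symm
  rw [h2, den, normSq_add]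
  have h3 : normSq (s ^ (α : ℂ)) = (‖s‖ ^ α) ^ 2 := by
    rw [Complex.normSq_eq_norm_sq, Complex.norm_cpow_real]
  have h4 : normSq (((δ ^ (α - 1) : ℝ) : ℂ) * s) = (δ ^ (α - 1) * ‖s‖) ^ 2 := by
    rw [Complex.normSq_eq_norm_sq, norm_mul, Complex.norm_real, Real.norm_of_nonneg hd.le]
  rw [h3, h4]
  have h5 : s ^ (α : ℂ) * (starRingEnd ℂ) (((δ ^ (α - 1) : ℝ) : ℂ) * s) =
      ((δ ^ (α - 1) : ℝ) : ℂ) * (s ^ (α : ℂ) * (starRingEnd ℂ) s) := by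
    rw [map_mul, conj_ofReal]; ring
  have h6 : 0 ≤ (s ^ (α : ℂ) * (starRingEnd ℂ) (((δ ^ (α - 1) : ℝ) : ℂ) * s)).re := by
    rw [h5, re_ofReal_mul]
    exact mul_nonneg hd.le (re_cpow_mul_conj hs0 hs h0 h1)
  linarith

include h0 h1 hδ in
theorem den_norm_ge {s : ℂ} (hs0 : s ≠ 0) (hs : 0 ≤ s.re) :
    (‖s‖ ^ α + δ ^ (α - 1) * ‖s‖) / 2 ≤ ‖den α δ s‖ := by
  have h := den_norm_sq h0 h1 hδ hs0 hs
  have hp := Real.rpow_pos_of_pos (norm_pos_iff.2 hs0) α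
  have hd := Real.rpow_pos_of_pos hδ (α - 1)
  have hq := mul_pos hd (norm_pos_iff.2 hs0)
  apply le_of_sq_le_sq' _ (norm_nonneg _)
  nlinarith [sq_nonneg (‖s‖ ^ α - δ ^ (α - 1) * ‖s‖)]
where
  le_of_sq_le_sq' {a b : ℝ} (h : a ^ 2 ≤ b ^ 2) (hb : 0 ≤ b) : a ≤ b := by
    nlinarith [sq_nonneg (a - b), sq_nonneg (a + b)]

include hδ in
theorem den_norm_le (s : ℂ) :
    ‖den α δ s‖ ≤ ‖s‖ ^ α + δ ^ (α - 1) * ‖s‖ := by
  have hd := Real.rpow_pos_of_pos hδ (α - 1)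
  unfold den
  refine (norm_add_le _ _).trans ?_
  rw [Complex.norm_cpow_real, norm_mul, Complex.norm_real, Real.norm_of_nonneg hd.le]

include h0 h1 hδ in
theorem den_ne_zero {s : ℂ} (hs0 : s ≠ 0) (hs : 0 ≤ s.re) : den α δ s ≠ 0 := by
  have h := den_norm_ge h0 h1 hδ hs0 hs
  have := bd_den_pos (α := α) hδ (norm_pos_iff.2 hs0)
  rw [← norm_pos_iff]
  linarith

include h0 h1 hδ in
theorem ker_norm_le {s : ℂ} (hs0 : s ≠ 0) (hs : 0 ≤ s.re) : ‖ker α δ s‖ ≤ 2 * bd α δ ‖s‖ := by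
  have h := den_norm_ge h0 h1 hδ hs0 hs
  have hp := bd_den_pos (α := α) hδ (norm_pos_iff.2 hs0)
  unfold ker bd
  rw [norm_inv]
  have h2 : 2 * (‖s‖ ^ α + δ ^ (α - 1) * ‖s‖)⁻¹ = ((‖s‖ ^ α + δ ^ (α - 1) * ‖s‖) / 2)⁻¹ := by
    rw [inv_div]; ring
  rw [h2]
  exact inv_anti₀ (by linarith) h

include h0 h1 hδ in
theorem den_re_ge {s : ℂ} (hs0 : s ≠ 0) (hs : 0 ≤ s.re) :
    Real.cos (α * (Real.pi / 2)) * ‖s‖ ^ α ≤ (den α δ s).re := by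
  have h := re_cpow_ge hs0 hs h0 h1
  have hd := Real.rpow_pos_of_pos hδ (α - 1)
  unfold den
  rw [add_re, re_ofReal_mul]
  nlinarith [mul_nonneg hd.le hs]

include h0 h1 in
theorem cos_pos : 0 < Real.cos (α * (Real.pi / 2)) := by
  have hp := Real.pi_pos
  apply Real.cos_pos_of_mem_Ioo
  constructor <;> nlinarith

include h0 h1 hδ in
theorem ker_re_nonneg {s : ℂ} (hs0 : s ≠ 0) (hs : 0 ≤ s.re) : 0 ≤ (ker α δ s).re := by
  have h := den_re_ge h0 h1 hδ hs0 hs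
  have hc := cos_pos h0 h1
  have hp := Real.rpow_pos_of_pos (norm_pos_iff.2 hs0) α
  unfold ker
  rw [inv_re]
  exact div_nonneg ((mul_pos hc hp).le.trans h) (normSq_nonneg _)

include h0 h1 hδ in
theorem ker_re_ge {s : ℂ} (hs0 : s ≠ 0) (hs : 0 ≤ s.re) (hsδ : ‖s‖ ≤ δ) :
    Real.cos (α * (Real.pi / 2)) / 4 * ‖s‖ ^ (-α) ≤ (ker α δ s).re := by
  have h := den_re_ge h0 h1 hδ hs0 hs
  have hc := cos_pos h0 h1
  have hn := norm_pos_iff.2 hs0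
  have hp := Real.rpow_pos_of_pos hn α
  have hb := bd_ge h1 hδ hn hsδ
  have hq := bd_den_pos (α := α) hδ hn
  have hle := den_norm_le (α := α) hδ s
  have hne := norm_pos_iff.2 (den_ne_zero h0 h1 hδ hs0 hs)
  have h2 : ‖s‖ ^ α + δ ^ (α - 1) * ‖s‖ ≤ 2 * ‖s‖ ^ α := by
    unfold bd at hb
    have h4 : ‖s‖ ^ (-α) / 2 = (2 * ‖s‖ ^ α)⁻¹ := by
      rw [Real.rpow_neg hn.le, mul_inv]; ring
    rw [h4] at hb
    exact (inv_le_inv₀ (by positivity) hq).1 hb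
  unfold ker
  rw [inv_re, Complex.normSq_eq_norm_sq, le_div_iff₀ (by positivity)]
  have h5 : ‖den α δ s‖ ^ 2 ≤ (2 * ‖s‖ ^ α) ^ 2 :=
    pow_le_pow_left₀ (norm_nonneg _) (hle.trans h2) 2
  calc Real.cos (α * (Real.pi / 2)) / 4 * ‖s‖ ^ (-α) * ‖den α δ s‖ ^ 2
      ≤ Real.cos (α * (Real.pi / 2)) / 4 * ‖s‖ ^ (-α) * (2 * ‖s‖ ^ α) ^ 2 := by
        apply mul_le_mul_of_nonneg_left h5
        have := Real.rpow_pos_of_pos hn (-α)
        positivity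
    _ = Real.cos (α * (Real.pi / 2)) * ‖s‖ ^ α := by
        rw [Real.rpow_neg hn.le]
        field_simp
        ring
    _ ≤ _ := h

theorem mem_slit {s : ℂ} (hs0 : s ≠ 0) (hs : 0 ≤ s.re) : s ∈ slitPlane := by
  rw [mem_slitPlane_iff]
  rcases hs.lt_or_eq with h | h
  · exact Or.inl h
  · right
    intro h2
    exact hs0 (Complex.ext h.symm h2)

theorem hasDerivAt_den {s : ℂ} (hs0 : s ≠ 0) (hs : 0 ≤ s.re) :
    HasDerivAt (den α δ) ((α : ℂ) * s ^ ((α - 1 : ℝ) : ℂ) + ((δ ^ (α - 1) : ℝ) : ℂ)) s := by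
  have h2 := (hasDerivAt_id s).cpow_const (c := (α : ℂ)) (mem_slit hs0 hs)
  have h3 := (hasDerivAt_id s).const_mul ((δ ^ (α - 1) : ℝ) : ℂ)
  have h4 := h2.add h3
  have h5 : (α : ℂ) * id s ^ ((α : ℂ) - 1) * 1 + ((δ ^ (α - 1) : ℝ) : ℂ) * 1 =
      (α : ℂ) * s ^ ((α - 1 : ℝ) : ℂ) + ((δ ^ (α - 1) : ℝ) : ℂ) := by
    push_cast
    simp
  rw [h5] at h4
  exact h4

include h0 h1 hδ in
theorem hasDerivAt_ker {s : ℂ} (hs0 : s ≠ 0) (hs : 0 ≤ s.re) :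
    HasDerivAt (ker α δ)
      (-((α : ℂ) * s ^ ((α - 1 : ℝ) : ℂ) + ((δ ^ (α - 1) : ℝ) : ℂ)) / (den α δ s) ^ 2) s :=
  (hasDerivAt_den hs0 hs).inv (den_ne_zero h0 h1 hδ hs0 hs)

include h0 h1 hδ in
theorem deriv_bound {s : ℂ} (hs0 : s ≠ 0) (hs : 0 ≤ s.re) :
    ‖-((α : ℂ) * s ^ ((α - 1 : ℝ) : ℂ) + ((δ ^ (α - 1) : ℝ) : ℂ)) / (den α δ s) ^ 2‖ ≤
      4 * bd α δ ‖s‖ / ‖s‖ := by
  have hn := norm_pos_iff.2 hs0
  have hd := Real.rpow_pos_of_pos hδ (α - 1)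
  have hne := norm_pos_iff.2 (den_ne_zero h0 h1 hδ hs0 hs)
  have hq := bd_den_pos (α := α) hδ hn
  have hge := den_norm_ge h0 h1 hδ hs0 hs
  rw [norm_div, norm_neg, norm_pow]
  have h2 : ‖(α : ℂ) * s ^ ((α - 1 : ℝ) : ℂ) + ((δ ^ (α - 1) : ℝ) : ℂ)‖ ≤
      (‖s‖ ^ α + δ ^ (α - 1) * ‖s‖) / ‖s‖ := by
    refine (norm_add_le _ _).trans ?_
    rw [norm_mul, Complex.norm_cpow_real, Complex.norm_real, Complex.norm_real,
      Real.norm_of_nonneg hd.le, Real.norm_of_nonneg h0.le, Real.rpow_sub_one hn.ne', add_div,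
      mul_div_assoc (δ ^ (α - 1)), div_self hn.ne', mul_one]
    have : 0 ≤ ‖s‖ ^ α / ‖s‖ := by positivity
    nlinarith
  calc _ ≤ ((‖s‖ ^ α + δ ^ (α - 1) * ‖s‖) / ‖s‖) / ((‖s‖ ^ α + δ ^ (α - 1) * ‖s‖) / 2) ^ 2 := by
        apply div_le_div₀ (by positivity) h2 (by positivity)
        exact pow_le_pow_left₀ (by positivity) hge 2
    _ = 4 * bd α δ ‖s‖ / ‖s‖ := by
        unfold bd
        field_simp
        ring

include h0 h1 hδ in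
theorem bd_half {x y : ℝ} (hx : 0 < x) (hxy : x / 2 ≤ y) : bd α δ y ≤ 2 * bd α δ x := by
  have hy : 0 < y := by linarith
  unfold bd
  have h2 : 2 * (x ^ α + δ ^ (α - 1) * x)⁻¹ = ((x ^ α + δ ^ (α - 1) * x) / 2)⁻¹ := by
    rw [inv_div]; ring
  rw [h2]
  have hq := bd_den_pos (α := α) hδ hx
  apply inv_anti₀ (by positivity)
  have hd := Real.rpow_pos_of_pos hδ (α - 1)
  have h3 : x ^ α / 2 ≤ y ^ α := by
    have h4 : (x / 2) ^ α ≤ y ^ α := Real.rpow_le_rpow (by positivity) hxy h0.le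
    have h5 : x ^ α / 2 ≤ (x / 2) ^ α := by
      rw [Real.div_rpow hx.le (by norm_num)]
      apply div_le_div_of_nonneg_left (by positivity) (by positivity)
      calc (2 : ℝ) ^ α ≤ 2 ^ (1 : ℝ) := Real.rpow_le_rpow_of_exponent_le (by norm_num) h1.le
        _ = 2 := by norm_num
    exact h5.trans h4
  nlinarith

include h0 h1 hδ in
/-- The Lipschitz estimate for the kernel. -/
theorem ker_sub_le {s t : ℂ} (hs0 : s ≠ 0) (hs : 0 ≤ s.re) (ht : 0 ≤ t.re)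
    (hst : ‖t - s‖ ≤ ‖s‖ / 2) : ‖ker α δ t - ker α δ s‖ ≤ 16 * (bd α δ ‖s‖ / ‖s‖) * ‖t - s‖ := by
  have hn := norm_pos_iff.2 hs0
  set K : Set ℂ := {w | 0 ≤ w.re} ∩ Metric.closedBall s (‖s‖ / 2) with hK
  have hconv : Convex ℝ K := (convex_halfSpace_re_ge 0).inter (convex_closedBall _ _)
  have hlow : ∀ w ∈ K, ‖s‖ / 2 ≤ ‖w‖ := by
    intro w hw
    have h2 : ‖w - s‖ ≤ ‖s‖ / 2 := by
      have := hw.2
      rwa [Metric.mem_closedBall, dist_eq_norm] at this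
    have h3 : ‖s‖ ≤ ‖w‖ + ‖w - s‖ := by
      calc ‖s‖ = ‖w - (w - s)‖ := by congr 1; ring
        _ ≤ ‖w‖ + ‖w - s‖ := norm_sub_le _ _
    linarith
  have hw0 : ∀ w ∈ K, w ≠ 0 := by
    intro w hw
    rw [← norm_pos_iff]
    have := hlow w hw
    linarith
  refine hconv.norm_image_sub_le_of_norm_hasDerivWithin_le (𝕜 := ℂ)
    (f' := fun w => -((α : ℂ) * w ^ ((α - 1 : ℝ) : ℂ) + ((δ ^ (α - 1) : ℝ) : ℂ)) / (den α δ w) ^ 2)
    ?_ ?_ ?_ ?_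
  · intro w hw
    exact (hasDerivAt_ker h0 h1 hδ (hw0 w hw) hw.1).hasDerivWithinAt
  · intro w hw
    refine (deriv_bound h0 h1 hδ (hw0 w hw) hw.1).trans ?_
    have hl := hlow w hw
    have hwp := norm_pos_iff.2 (hw0 w hw)
    have hb := bd_half h0 h1 hδ hn hl
    have hbp := bd_pos (α := α) hδ hn
    rw [div_le_iff₀ hwp]
    calc 4 * bd α δ ‖w‖ ≤ 4 * (2 * bd α δ ‖s‖) := by linarith
      _ = 16 * (bd α δ ‖s‖ / ‖s‖) * (‖s‖ / 2) := by field_simp; ring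
      _ ≤ 16 * (bd α δ ‖s‖ / ‖s‖) * ‖w‖ := by
        apply mul_le_mul_of_nonneg_left hl
        positivity
  · exact ⟨hs, Metric.mem_closedBall_self (by positivity)⟩
  · exact ⟨ht, by rw [Metric.mem_closedBall, dist_eq_norm]; exact hst⟩

end

end Pool.Agent.L7h52.Peak
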