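import Pool.Agent.L7h52.Peak.Geom

/-!
The function of the construction.
-/

set_option autoImplicit false

namespace Pool.Agent.L7h52.Peak

open Finset

/-- the argument of the kernel -/
noncomputable def arg1 (ζ z : ℂ) : ℂ := 1 - (starRingEnd ℂ) ζ * z

theorem norm_arg1 {ζ : ℂ} (hζ : ‖ζ‖ = 1) (z : ℂ) : ‖arg1 ζ z‖ = ‖z - ζ‖ := by
  have h : arg1 ζ z = (starRingEnd ℂ) ζ * (ζ - z) := by
    unfold arg1
    have h2 : (starRingEnd ℂ) ζ * ζ = 1 := by
      rw [← Complex.normSq_eq_conj_mul_self, Complex.normSq_eq_norm_sq, hζ]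
      norm_num
    rw [mul_sub, h2]
  rw [h, norm_mul, Complex.norm_conj, hζ, one_mul, norm_sub_rev]

theorem arg1_re {ζ z : ℂ} (hζ : ‖ζ‖ = 1) (hz : ‖z‖ ≤ 1) : 0 ≤ (arg1 ζ z).re := by
  unfold arg1
  rw [Complex.sub_re, Complex.one_re]
  have h := Complex.re_le_norm ((starRingEnd ℂ) ζ * z)
  rw [norm_mul, Complex.norm_conj, hζ, one_mul] at h
  linarith

theorem arg1_ne {ζ z : ℂ} (hζ : ‖ζ‖ = 1) (hz : z ≠ ζ) : arg1 ζ z ≠ 0 := by
  rw [← norm_pos_iff, norm_arg1 hζ, norm_pos_iff, sub_ne_zero]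
  exact hz

theorem arg1_sub {ζ : ℂ} (hζ : ‖ζ‖ = 1) (z w : ℂ) : ‖arg1 ζ w - arg1 ζ z‖ = ‖w - z‖ := by
  have h : arg1 ζ w - arg1 ζ z = (starRingEnd ℂ) ζ * (z - w) := by unfold arg1; ring
  rw [h, norm_mul, Complex.norm_conj, hζ, one_mul, norm_sub_rev]

/-- the exceptional set -/
def E (α : ℝ) : Set ℂ := insert 1 (Set.range fun p : (k : ℕ) × Fin (N α k) => zt α p.1 p.2)

theorem mem_E {α : ℝ} {z : ℂ} : z ∈ E α ↔ z = 1 ∨ ∃ k, ∃ i < N α k, z = zt α k i := by
  unfold E
  rw [Set.mem_insert_iff, Set.mem_range]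
  constructor
  · rintro (h | ⟨⟨k, i⟩, h⟩)
    · exact Or.inl h
    · exact Or.inr ⟨k, i, i.2, h.symm⟩
  · rintro (h | ⟨k, i, hi, h⟩)
    · exact Or.inl h
    · exact Or.inr ⟨⟨k, ⟨i, hi⟩⟩, h.symm⟩

variable {α : ℝ} (h0 : 0 < α) (h1 : α < 1)

theorem isCompact_E : IsCompact (E α) := by
  unfold E
  apply Filter.Tendsto.isCompact_insert_range_of_cofinite
  rw [Metric.tendsto_nhds]
  intro ε hε
  have h2 : Filter.Tendsto (fun k : ℕ => 2 * a k) Filter.atTop (nhds 0) := by
    have h3 : Filter.Tendsto (fun k : ℕ => (1 / 4 : ℝ) ^ (k + 1)) Filter.atTop (nhds 0) :=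
      (tendsto_pow_atTop_nhds_zero_of_lt_one (by norm_num) (by norm_num)).comp
        (Filter.tendsto_add_atTop_nat 1)
    have := h3.const_mul 2
    simpa [a] using this
  obtain ⟨n, hn⟩ := Filter.eventually_atTop.1 (h2.eventually (gt_mem_nhds hε))
  rw [Filter.eventually_cofinite]
  refine Set.Finite.subset
    (s := ((Finset.sigma (range n) fun k => (Finset.univ : Finset (Fin (N α k)))) :
      Set ((k : ℕ) × Fin (N α k)))) (Finset.finite_toSet _) ?_
  rintro ⟨k, i⟩ hp
  simp only [Finset.coe_sigma, Set.mem_sigma_iff, Finset.coe_range, Set.mem_Iio,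
    Finset.coe_univ, Set.mem_univ, and_true]
  by_contra hk
  push Not at hk
  apply hp
  simp only
  rw [dist_comm, dist_eq_norm]
  exact (one_sub_zt_le i.2).trans_lt (hn k hk)

theorem isClosed_E : IsClosed (E α) := isCompact_E.isClosed

theorem E_subset : E α ⊆ Metric.sphere (0 : ℂ) 1 := by
  intro z hz
  rw [mem_sphere_zero_iff_norm]
  rcases mem_E.1 hz with rfl | ⟨k, i, _, rfl⟩
  · simp
  · exact norm_zt k i

/-! ### separation -/

include h0 h1 in
theorem sep {k l i j : ℕ} (hi : i < N α k) (hj : j < N α l) (hne : ¬ (k = l ∧ i = j)) :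
    2 * dl α k ≤ ‖zt α k i - zt α l j‖ := by
  have hd := dl_pos (α := α) k
  rcases lt_trichotomy k l with h | h | h
  · have h2 := zt_sub_diff h hi hj
    have h3 := dl_le_a h0 h1 k
    linarith
  · subst h
    have hij : i ≠ j := fun h => hne ⟨rfl, h⟩
    have h2 := zt_sub_same hi hj
    have h3 := dl_le_sp h0 h1 k
    have h4 : (1 : ℝ) ≤ |(i : ℝ) - j| := by
      have h5 : (1 : ℤ) ≤ |(i : ℤ) - j| := by
        apply Int.one_le_abs
        omega
      exact_mod_cast h5
    have h5 := sp_pos (α := α) k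
    nlinarith
  · have h2 := zt_sub_diff h hj hi
    have h3 := dl_le_a h0 h1 k
    have h4 := a_lt h
    have h5 := a_pos k
    rw [norm_sub_rev]
    linarith

include h0 h1 in
/-- a point close to `ζ` has `ζ` as its nearest point in `E` -/
theorem near_dist {z : ℂ} {k i : ℕ} (hi : i < N α k) (hz : ‖z - zt α k i‖ < dl α k) {e : ℂ}
    (he : e ∈ E α) : ‖z - zt α k i‖ ≤ ‖z - e‖ := by
  have hd := dl_pos (α := α) k
  by_cases hee : e = zt α k i
  · rw [hee]
  have h2 : 2 * dl α k ≤ ‖zt α k i - e‖ := by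
    rcases mem_E.1 he with rfl | ⟨l, j, hj, rfl⟩
    · have h3 := one_sub_zt_ge hi
      have h4 := dl_le_a h0 h1 k
      rw [norm_sub_rev]
      linarith [a_pos k]
    · apply sep h0 h1 hi hj
      rintro ⟨rfl, rfl⟩
      exact hee rfl
  have h3 : ‖zt α k i - e‖ ≤ ‖z - e‖ + ‖z - zt α k i‖ := by
    calc ‖zt α k i - e‖ = ‖(z - e) - (z - zt α k i)‖ := by congr 1; ring
      _ ≤ _ := norm_sub_le _ _
  linarith

include h0 h1 in
theorem near_unique {z : ℂ} {k i l j : ℕ} (hi : i < N α k) (hz : ‖z - zt α k i‖ < dl α k)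
    (hj : j < N α l) (hz2 : ‖z - zt α l j‖ < dl α l) : k = l ∧ i = j := by
  by_contra hne
  have h2 := sep h0 h1 hi hj hne
  have h3 := sep h0 h1 hj hi (fun h => hne ⟨h.1.symm, h.2.symm⟩)
  rw [norm_sub_rev] at h3
  have h4 : ‖zt α k i - zt α l j‖ ≤ ‖z - zt α l j‖ + ‖z - zt α k i‖ := by
    calc ‖zt α k i - zt α l j‖ = ‖(z - zt α l j) - (z - zt α k i)‖ := by congr 1; ring
      _ ≤ _ := norm_sub_le _ _
  linarith

/-! ### the sums -/

/-- the block sums of the bounds -/
noncomputable def B (α : ℝ) (z : ℂ) (k : ℕ) : ℝ :=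
  ∑ i ∈ range (N α k), bd α (dl α k) ‖z - zt α k i‖

/-- the block sums of the kernels -/
noncomputable def gb (α : ℝ) (z : ℂ) (k : ℕ) : ℂ :=
  ∑ i ∈ range (N α k), ker α (dl α k) (arg1 (zt α k i) z)

theorem ne_of_notMem {z : ℂ} (hz : z ∉ E α) {k i : ℕ} (hi : i < N α k) : z ≠ zt α k i :=
  fun h => hz (mem_E.2 (Or.inr ⟨k, i, hi, h⟩))

theorem ne_one_of_notMem {z : ℂ} (hz : z ∉ E α) : z ≠ 1 := fun h => hz (mem_E.2 (Or.inl h))

theorem B_nonneg {z : ℂ} (hz : z ∉ E α) (k : ℕ) : 0 ≤ B α z k := by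
  refine Finset.sum_nonneg fun i hi => (bd_pos (dl_pos k) ?_).le
  rw [norm_pos_iff, sub_ne_zero]
  exact ne_of_notMem hz (Finset.mem_range.1 hi)

include h0 h1 in
theorem norm_gb_le {z : ℂ} (hz1 : ‖z‖ ≤ 1) (hz : z ∉ E α) (k : ℕ) : ‖gb α z k‖ ≤ 2 * B α z k := by
  unfold gb B
  refine (norm_sum_le _ _).trans ?_
  rw [Finset.mul_sum]
  refine Finset.sum_le_sum fun i hi => ?_
  have hζ := norm_zt (α := α) k i
  have h2 := ker_norm_le h0 h1 (dl_pos (α := α) k)
    (arg1_ne hζ (ne_of_notMem hz (Finset.mem_range.1 hi))) (arg1_re hζ hz1)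
  rwa [norm_arg1 hζ] at h2

include h0 h1 in
theorem gb_re_nonneg {z : ℂ} (hz1 : ‖z‖ ≤ 1) (hz : z ∉ E α) (k : ℕ) : 0 ≤ (gb α z k).re := by
  unfold gb
  rw [Complex.re_sum]
  refine Finset.sum_nonneg fun i hi => ?_
  have hζ := norm_zt (α := α) k i
  exact ker_re_nonneg h0 h1 (dl_pos (α := α) k)
    (arg1_ne hζ (ne_of_notMem hz (Finset.mem_range.1 hi))) (arg1_re hζ hz1)

/-- the sum -/
noncomputable def G (α M : ℝ) (z : ℂ) : ℂ := M / (1 - z) + ∑' k, gb α z k

theorem far_B {z : ℂ} (hfar : ∀ k, ∀ i < N α k, dl α k ≤ ‖z - zt α k i‖) (k : ℕ) :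
    B α z k = K α z k := by
  unfold B K
  refine Finset.sum_congr rfl fun i hi => ?_
  rw [if_pos (hfar k i (Finset.mem_range.1 hi))]

include h0 h1 in
theorem near_B {z : ℂ} {k i : ℕ} (hi : i < N α k) (hz : ‖z - zt α k i‖ < dl α k) (l : ℕ) :
    B α z l = K α z l + if l = k then bd α (dl α k) ‖z - zt α k i‖ else 0 := by
  unfold B K
  by_cases hl : l = k
  · subst hl
    rw [if_pos rfl, ← Finset.add_sum_erase _ _ (Finset.mem_range.2 hi),
      ← Finset.add_sum_erase _ _ (Finset.mem_range.2 hi), if_neg (not_le.2 hz), zero_add, add_comm]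
    congr 1
    refine Finset.sum_congr rfl fun j hj => ?_
    have hj1 := Finset.mem_range.1 (Finset.mem_of_mem_erase hj)
    rw [if_pos]
    by_contra hcon
    have := near_unique h0 h1 hi hz hj1 (not_le.1 hcon)
    exact Finset.ne_of_mem_erase hj this.2.symm
  · rw [if_neg hl, add_zero]
    refine Finset.sum_congr rfl fun j hj => ?_
    have hj1 := Finset.mem_range.1 hj
    rw [if_pos]
    by_contra hcon
    have := near_unique h0 h1 hi hz hj1 (not_le.1 hcon)
    exact hl this.1.symm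

theorem re_inv_one_sub {z : ℂ} (hz1 : ‖z‖ ≤ 1) (hz : z ≠ 1) {M : ℝ} (hM : 0 ≤ M) :
    M / 2 ≤ ((M : ℂ) / (1 - z)).re := by
  have hne : (1 - z) ≠ 0 := sub_ne_zero.2 (Ne.symm hz)
  have hp : 0 < Complex.normSq (1 - z) := Complex.normSq_pos.2 hne
  have h2 : ((M : ℂ) / (1 - z)).re = M * ((1 - z).re / Complex.normSq (1 - z)) := by
    rw [div_eq_mul_inv, Complex.re_ofReal_mul, Complex.inv_re]
  rw [h2]
  have h3 : Complex.normSq (1 - z) = 1 - 2 * z.re + Complex.normSq z := by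
    rw [Complex.normSq_apply, Complex.normSq_apply]
    simp
    ring
  have h4 : Complex.normSq z ≤ 1 := by
    rw [Complex.normSq_eq_norm_sq]
    nlinarith [norm_nonneg z]
  have h5 : 1 / 2 ≤ (1 - z).re / Complex.normSq (1 - z) := by
    rw [div_le_div_iff₀ (by norm_num) hp]
    simp
    linarith
  calc M / 2 = M * (1 / 2) := by ring
    _ ≤ _ := mul_le_mul_of_nonneg_left h5 hM

include h0 h1 in
theorem le_two_mul_rpow {x : ℝ} (hx : 0 ≤ x) (hx2 : x ≤ 2) : x ≤ 2 * x ^ α := by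
  rcases hx.eq_or_lt with rfl | hpos
  · rw [Real.zero_rpow h0.ne', mul_zero]
  · have h2 : x = x ^ (1 - α) * x ^ α := by
      rw [← Real.rpow_add hpos]; simp
    have h3 : x ^ (1 - α) ≤ 2 := by
      calc x ^ (1 - α) ≤ 2 ^ (1 - α) := Real.rpow_le_rpow hx hx2 (by linarith)
        _ ≤ 2 ^ (1 : ℝ) := Real.rpow_le_rpow_of_exponent_le (by norm_num) (by linarith)
        _ = 2 := by norm_num
    have h4 : 0 ≤ x ^ α := by positivity
    calc x = x ^ (1 - α) * x ^ α := h2
      _ ≤ 2 * x ^ α := mul_le_mul_of_nonneg_right h3 h4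

include h0 h1 in
/-- The core estimates for the sum. -/
theorem core : ∃ M C : ℝ, 2 ≤ M ∧ 0 < C ∧ ∀ z : ℂ, ‖z‖ ≤ 1 → z ∉ E α →
    (Summable fun k => B α z k) ∧
    (Summable fun k => gb α z k) ∧
    M / ‖1 - z‖ + ∑' k, B α z k ≤ C * ‖G α M z‖ ∧
    (∀ e ∈ E α, 1 ≤ C * ‖G α M z‖ * ‖z - e‖ ^ α) ∧
    M / 2 ≤ (G α M z).re := by
  obtain ⟨A, hA0, hA⟩ := exists_bound h0 h1
  set c := Real.cos (α * (Real.pi / 2)) with hc
  have hc0 : 0 < c := cos_pos h0 h1
  refine ⟨2 * A + 2, 17 + (2 * A + 2 + A) + (4 * (2 * A + 2 + A) + 1) * (4 / c), by linarith,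
    by positivity, ?_⟩
  intro z hz1 hz
  set M := 2 * A + 2 with hM
  have hM0 : 0 ≤ M := by linarith
  set C := 17 + (M + A) + (4 * (M + A) + 1) * (4 / c) with hC
  have hz' : z ≠ 1 := ne_one_of_notMem hz
  have hn : 0 < ‖1 - z‖ := norm_pos_iff.2 (sub_ne_zero.2 (Ne.symm hz'))
  obtain ⟨hs, hle⟩ := hA z
  have hsK : Summable fun k => K α z k := by
    have := hs.mul_left (‖1 - z‖⁻¹)
    refine this.congr fun k => ?_
    rw [← mul_assoc, inv_mul_cancel₀ hn.ne', one_mul]
  have hKle : ∑' k, K α z k ≤ A / ‖1 - z‖ := by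
    rw [le_div_iff₀ hn, mul_comm, ← tsum_mul_left]
    exact hle
  have hsB : Summable fun k => B α z k := by
    by_cases hfar : ∀ k, ∀ i < N α k, dl α k ≤ ‖z - zt α k i‖
    · exact hsK.congr fun k => (far_B hfar k).symm
    · push Not at hfar
      obtain ⟨k, i, hi, hki⟩ := hfar
      have h2 : Summable fun l => if l = k then bd α (dl α k) ‖z - zt α k i‖ else 0 := by
        apply summable_of_ne_finset_zero (s := {k})
        intro l hl
        rw [Finset.mem_singleton] at hl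
        simp [hl]
      exact (hsK.add h2).congr fun l => (near_B h0 h1 hi hki l).symm
  have hsg : Summable fun k => gb α z k :=
    Summable.of_norm_bounded (hsB.mul_left 2) fun k => norm_gb_le h0 h1 hz1 hz k
  have hgre : (∑' k, gb α z k).re = ∑' k, (gb α z k).re := Complex.re_tsum hsg
  have hsre : Summable fun k => (gb α z k).re :=
    Complex.hasSum_re hsg.hasSum |>.summable
  have hre0 : 0 ≤ ∑' k, (gb α z k).re := tsum_nonneg fun k => gb_re_nonneg h0 h1 hz1 hz k
  have hinv := re_inv_one_sub hz1 hz' hM0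
  have hGre : (G α M z).re = ((M : ℂ) / (1 - z)).re + ∑' k, (gb α z k).re := by
    unfold G
    rw [Complex.add_re, hgre]
  refine ⟨hsB, hsg, ?_⟩
  have hGM : M / 2 ≤ (G α M z).re := by rw [hGre]; linarith
  have hCc : 0 ≤ (4 * (M + A) + 1) * (4 / c) := by positivity
  by_cases hfar : ∀ k, ∀ i < N α k, dl α k ≤ ‖z - zt α k i‖
  · -- no point of the sequence is too near
    have hT : ∑' k, B α z k = ∑' k, K α z k := tsum_congr fun k => far_B hfar k
    have hG : 2 / ‖1 - z‖ ≤ ‖G α M z‖ := by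
      have h2 : ‖∑' k, gb α z k‖ ≤ 2 * (A / ‖1 - z‖) := by
        calc ‖∑' k, gb α z k‖ ≤ ∑' k, 2 * B α z k :=
              tsum_of_norm_bounded (hsB.mul_left 2).hasSum fun k => norm_gb_le h0 h1 hz1 hz k
          _ = 2 * ∑' k, B α z k := tsum_mul_left
          _ ≤ _ := by rw [hT]; linarith
      have h3 : ‖(M : ℂ) / (1 - z)‖ = M / ‖1 - z‖ := by
        rw [norm_div, Complex.norm_real, Real.norm_of_nonneg hM0]
      have h4 : ‖(M : ℂ) / (1 - z)‖ ≤ ‖G α M z‖ + ‖∑' k, gb α z k‖ := by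
        unfold G
        calc ‖(M : ℂ) / (1 - z)‖ = ‖((M : ℂ) / (1 - z) + ∑' k, gb α z k) - ∑' k, gb α z k‖ := by
              congr 1; ring
          _ ≤ _ := norm_sub_le _ _
      rw [h3] at h4
      have h5 : 2 / ‖1 - z‖ = M / ‖1 - z‖ - 2 * (A / ‖1 - z‖) := by
        rw [hM]; ring
      rw [h5]
      linarith
    have hG0 : 0 ≤ ‖G α M z‖ := norm_nonneg _
    refine ⟨?_, ?_, hGM⟩
    · rw [hT]
      have h2 : M / ‖1 - z‖ + ∑' k, K α z k ≤ (M + A) / ‖1 - z‖ := by
        have h3 : (M + A) / ‖1 - z‖ = M / ‖1 - z‖ + A / ‖1 - z‖ := add_div _ _ _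
        rw [h3]; linarith
      have h3 : (M + A) / ‖1 - z‖ = (M + A) / 2 * (2 / ‖1 - z‖) := by ring
      have h4 : (M + A) / 2 * (2 / ‖1 - z‖) ≤ (M + A) / 2 * ‖G α M z‖ :=
        mul_le_mul_of_nonneg_left hG (by positivity)
      have h5 : (M + A) / 2 * ‖G α M z‖ ≤ C * ‖G α M z‖ := by
        apply mul_le_mul_of_nonneg_right _ hG0
        rw [hC]
        linarith
      linarith
    · intro e he
      have h2 : ‖1 - z‖ ≤ 34 * ‖z - e‖ ^ α := by
        rcases mem_E.1 he with rfl | ⟨k, i, hi, rfl⟩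
        · have h3 : ‖1 - z‖ ≤ 2 := by
            refine (norm_sub_le _ _).trans ?_
            rw [norm_one]; linarith
          have h4 := le_two_mul_rpow h0 h1 hn.le h3
          rw [norm_sub_rev z 1]
          have h5 : 0 ≤ ‖1 - z‖ ^ α := by positivity
          linarith
        · have h3 : ‖z - zt α k i‖ ≤ 2 := by
            refine (norm_sub_le _ _).trans ?_
            rw [norm_zt]; linarith
          have h4 := le_two_mul_rpow h0 h1 (norm_nonneg _) h3
          have h5 := one_sub_zt_le hi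
          have h6 := (dl_rpow h0 h1 k).1
          have h7 : (dl α k) ^ α ≤ ‖z - zt α k i‖ ^ α :=
            Real.rpow_le_rpow (dl_pos k).le (hfar k i hi) h0.le
          have h8 : ‖1 - z‖ ≤ ‖1 - zt α k i‖ + ‖z - zt α k i‖ := by
            calc ‖1 - z‖ = ‖(1 - zt α k i) - (z - zt α k i)‖ := by congr 1; ring
              _ ≤ _ := norm_sub_le _ _
          linarith
      have h3 : 1 ≤ 17 * ‖G α M z‖ * ‖z - e‖ ^ α := by
        have h4 : 0 ≤ ‖z - e‖ ^ α := by positivity
        calc (1 : ℝ) = (2 / ‖1 - z‖) * (‖1 - z‖ / 2) := by field_simp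
          _ ≤ ‖G α M z‖ * (34 * ‖z - e‖ ^ α / 2) := by
              apply mul_le_mul hG _ (by positivity) hG0
              linarith
          _ = _ := by ring
      refine h3.trans ?_
      apply mul_le_mul_of_nonneg_right _ (by positivity)
      apply mul_le_mul_of_nonneg_right _ hG0
      rw [hC]
      have : 0 ≤ M + A := by positivity
      linarith
  · push Not at hfar
    obtain ⟨k, i, hi, hki⟩ := hfar
    have hzne := ne_of_notMem hz hi
    have hx : 0 < ‖z - zt α k i‖ := norm_pos_iff.2 (sub_ne_zero.2 hzne)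
    set x := ‖z - zt α k i‖ with hxdef
    have hd := dl_pos (α := α) k
    have hζ := norm_zt (α := α) k i
    have hxp : 0 < x ^ (-α) := Real.rpow_pos_of_pos hx _
    have hT : ∑' l, B α z l ≤ A / ‖1 - z‖ + x ^ (-α) := by
      have h2 : HasSum (fun l => if l = k then bd α (dl α k) x else 0) (bd α (dl α k) x) :=
        hasSum_ite_eq k _
      have h3 : ∑' l, B α z l = ∑' l, K α z l + bd α (dl α k) x := by
        rw [← (hsK.hasSum.add h2).tsum_eq]
        exact tsum_congr fun l => near_B h0 h1 hi hki l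
      rw [h3]
      have := bd_le_rpow (α := α) hd hx
      linarith
    have hG : c / 4 * x ^ (-α) ≤ ‖G α M z‖ := by
      have h2 : c / 4 * x ^ (-α) ≤ (ker α (dl α k) (arg1 (zt α k i) z)).re := by
        have h3 := ker_re_ge h0 h1 hd (arg1_ne hζ hzne) (arg1_re hζ hz1)
          (by rw [norm_arg1 hζ]; exact hki.le)
        rwa [norm_arg1 hζ] at h3
      have h3 : (ker α (dl α k) (arg1 (zt α k i) z)).re ≤ (gb α z k).re := by
        unfold gb
        rw [Complex.re_sum]
        refine Finset.single_le_sum (f := fun j => (ker α (dl α k) (arg1 (zt α k j) z)).re)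
          (fun j hj => ?_) (Finset.mem_range.2 hi)
        have hζj := norm_zt (α := α) k j
        exact ker_re_nonneg h0 h1 hd (arg1_ne hζj (ne_of_notMem hz (Finset.mem_range.1 hj)))
          (arg1_re hζj hz1)
      have h4 : (gb α z k).re ≤ ∑' l, (gb α z l).re :=
        hsre.le_tsum k fun l _ => gb_re_nonneg h0 h1 hz1 hz l
      have h5 : (G α M z).re ≤ ‖G α M z‖ := Complex.re_le_norm _
      rw [hGre] at h5
      linarith
    have hG0 : 0 ≤ ‖G α M z‖ := norm_nonneg _
    have hxa : x ^ α ≤ 4 * ‖1 - z‖ := by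
      have h2 : x ^ α ≤ (dl α k) ^ α := Real.rpow_le_rpow hx.le hki.le h0.le
      have h3 := (dl_rpow h0 h1 k).2
      have h4 := one_sub_zt_ge hi
      have h5 := dl_le_a h0 h1 k
      have h6 : ‖1 - zt α k i‖ ≤ ‖1 - z‖ + x := by
        calc ‖1 - zt α k i‖ = ‖(1 - z) + (z - zt α k i)‖ := by congr 1; ring
          _ ≤ _ := norm_add_le _ _
      have h7 := a_pos k
      linarith
    refine ⟨?_, ?_, hGM⟩
    · have h2 : 1 / ‖1 - z‖ ≤ 4 * x ^ (-α) := by
        rw [Real.rpow_neg hx.le, div_le_iff₀ hn]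
        have h3 : 0 < x ^ α := Real.rpow_pos_of_pos hx _
        calc (1 : ℝ) = (x ^ α)⁻¹ * x ^ α := by field_simp
          _ ≤ (x ^ α)⁻¹ * (4 * ‖1 - z‖) := mul_le_mul_of_nonneg_left hxa (by positivity)
          _ = _ := by ring
      have h3 : M / ‖1 - z‖ + ∑' l, B α z l ≤ (4 * (M + A) + 1) * x ^ (-α) := by
        calc M / ‖1 - z‖ + ∑' l, B α z l ≤ (M + A) * (1 / ‖1 - z‖) + x ^ (-α) := by
              have : (M + A) * (1 / ‖1 - z‖) = M / ‖1 - z‖ + A / ‖1 - z‖ := by ring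
              rw [this]; linarith
          _ ≤ (M + A) * (4 * x ^ (-α)) + x ^ (-α) := by
              have := mul_le_mul_of_nonneg_left h2 (by positivity : 0 ≤ M + A)
              linarith
          _ = _ := by ring
      have h4 : x ^ (-α) ≤ 4 / c * ‖G α M z‖ := by
        calc x ^ (-α) = 4 / c * (c / 4 * x ^ (-α)) := by field_simp
          _ ≤ _ := mul_le_mul_of_nonneg_left hG (by positivity)
      calc M / ‖1 - z‖ + ∑' l, B α z l ≤ (4 * (M + A) + 1) * x ^ (-α) := h3
        _ ≤ (4 * (M + A) + 1) * (4 / c * ‖G α M z‖) :=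
            mul_le_mul_of_nonneg_left h4 (by positivity)
        _ = ((4 * (M + A) + 1) * (4 / c)) * ‖G α M z‖ := by ring
        _ ≤ C * ‖G α M z‖ := by
            apply mul_le_mul_of_nonneg_right _ hG0
            rw [hC]
            have : 0 ≤ M + A := by positivity
            linarith
    · intro e he
      have h2 := near_dist h0 h1 hi hki he
      have h3 : x ^ α ≤ ‖z - e‖ ^ α := Real.rpow_le_rpow hx.le h2 h0.le
      have h5 : 0 < x ^ α := Real.rpow_pos_of_pos hx _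
      calc (1 : ℝ) = 4 / c * (c / 4 * x ^ (-α)) * x ^ α := by
            rw [Real.rpow_neg hx.le]; field_simp
        _ ≤ 4 / c * ‖G α M z‖ * ‖z - e‖ ^ α := by
            apply mul_le_mul _ h3 h5.le (by positivity)
            exact mul_le_mul_of_nonneg_left hG (by positivity)
        _ ≤ C * ‖G α M z‖ * ‖z - e‖ ^ α := by
            apply mul_le_mul_of_nonneg_right _ (by positivity)
            apply mul_le_mul_of_nonneg_right _ hG0
            rw [hC]
            have h6 : 0 ≤ M + A := by positivity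
            have h7 : 4 / c ≤ (4 * (M + A) + 1) * (4 / c) := by
              have : 0 < 4 / c := by positivity
              nlinarith
            linarith

end Pool.Agent.L7h52.Peak
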