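import Pool.Agent.L7h52.Peak.Kernel

/-!
The parameters of the construction.
-/

set_option autoImplicit false

namespace Pool.Agent.L7h52.Peak

open Finset

/-- distance of the `k`-th block from the point `1` -/
noncomputable def a (k : ℕ) : ℝ := (1 / 4) ^ (k + 1)

/-- number of points of the `k`-th block -/
noncomputable def N (α : ℝ) (k : ℕ) : ℕ := ⌈(a k) ^ (1 - 1 / α) * ((k : ℝ) + 1) ^ (-(1 / α))⌉₊

/-- spacing of the points of the `k`-th block -/
noncomputable def sp (α : ℝ) (k : ℕ) : ℝ := a k / N α k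

/-- the cut-off of the `k`-th block -/
noncomputable def dl (α : ℝ) (k : ℕ) : ℝ := (a k) ^ (1 / α) / 16

/-- ratio of cut-off and spacing, up to the factor 16 -/
noncomputable def ra (α : ℝ) (k : ℕ) : ℝ := N α k * (a k) ^ (1 / α - 1)

theorem a_pos (k : ℕ) : 0 < a k := by unfold a; positivity

theorem a_succ (k : ℕ) : a (k + 1) = a k / 4 := by unfold a; ring

theorem a_le_quarter (k : ℕ) : a k ≤ 1 / 4 := by
  induction k with
  | zero => unfold a; norm_num
  | succ k ih => rw [a_succ]; linarith [a_pos k]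

theorem a_anti {k l : ℕ} (h : k ≤ l) : a l ≤ a k := by
  induction l, h using Nat.le_induction with
  | base => exact le_rfl
  | succ l _ ih => rw [a_succ]; linarith [a_pos l]

theorem a_lt {k l : ℕ} (h : k < l) : a l ≤ a k / 4 := by
  rw [← a_succ]
  exact a_anti h

section

variable {α : ℝ} (h0 : 0 < α) (h1 : α < 1)

include h0 h1 in
theorem one_lt_inv : 1 < 1 / α := by
  rw [lt_div_iff₀ h0]; linarith

theorem N_pos (k : ℕ) : 0 < N α k := by
  unfold N
  have := a_pos k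
  exact Nat.ceil_pos.2 (by positivity)

theorem N_pos' (k : ℕ) : (0 : ℝ) < N α k := by exact_mod_cast N_pos k

theorem sp_pos (k : ℕ) : 0 < sp α k := div_pos (a_pos k) (N_pos' k)

theorem dl_pos (k : ℕ) : 0 < dl α k := by
  unfold dl
  have := Real.rpow_pos_of_pos (a_pos k) (1 / α)
  positivity

theorem ra_pos (k : ℕ) : 0 < ra α k := by
  unfold ra
  have := Real.rpow_pos_of_pos (a_pos k) (1 / α - 1)
  have := N_pos' (α := α) k
  positivity

theorem ra_le (k : ℕ) :
    ra α k ≤ ((k : ℝ) + 1) ^ (-(1 / α)) + (a k) ^ (1 / α - 1) := by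
  unfold ra
  have hp := Real.rpow_pos_of_pos (a_pos k) (1 / α - 1)
  have hN : (N α k : ℝ) ≤ (a k) ^ (1 - 1 / α) * ((k : ℝ) + 1) ^ (-(1 / α)) + 1 := by
    unfold N
    apply (Nat.ceil_lt_add_one _).le
    have := a_pos k
    positivity
  calc (N α k : ℝ) * (a k) ^ (1 / α - 1)
      ≤ ((a k) ^ (1 - 1 / α) * ((k : ℝ) + 1) ^ (-(1 / α)) + 1) * (a k) ^ (1 / α - 1) :=
        mul_le_mul_of_nonneg_right hN hp.le
    _ = ((a k) ^ (1 - 1 / α) * (a k) ^ (1 / α - 1)) * ((k : ℝ) + 1) ^ (-(1 / α)) +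
        (a k) ^ (1 / α - 1) := by ring
    _ = _ := by
        rw [← Real.rpow_add (a_pos k)]
        simp

theorem ra_ge (k : ℕ) : ((k : ℝ) + 1) ^ (-(1 / α)) ≤ ra α k := by
  unfold ra
  have hp := Real.rpow_pos_of_pos (a_pos k) (1 / α - 1)
  have hN : (a k) ^ (1 - 1 / α) * ((k : ℝ) + 1) ^ (-(1 / α)) ≤ (N α k : ℝ) := Nat.le_ceil _
  calc ((k : ℝ) + 1) ^ (-(1 / α))
      = ((a k) ^ (1 - 1 / α) * (a k) ^ (1 / α - 1)) * ((k : ℝ) + 1) ^ (-(1 / α)) := by
        rw [← Real.rpow_add (a_pos k)]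
        simp
    _ = ((a k) ^ (1 - 1 / α) * ((k : ℝ) + 1) ^ (-(1 / α))) * (a k) ^ (1 / α - 1) := by ring
    _ ≤ _ := mul_le_mul_of_nonneg_right hN hp.le

include h0 h1 in
theorem summable_ra : Summable (ra α) := by
  have h2 := one_lt_inv h0 h1
  refine Summable.of_nonneg_of_le (fun k => (ra_pos k).le) (fun k => ra_le k) ?_
  apply Summable.add
  · have h3 : Summable fun n : ℕ => (n : ℝ) ^ (-(1 / α)) := by
      rw [Real.summable_nat_rpow]
      linarith
    have h4 := (summable_nat_add_iff 1).2 h3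
    refine h4.congr fun k => ?_
    push_cast
    rfl
  · have h5 : ∀ k : ℕ, (a k) ^ (1 / α - 1) = ((1 / 4 : ℝ) ^ (1 / α - 1)) ^ (k + 1) := by
      intro k
      unfold a
      rw [← Real.rpow_natCast, ← Real.rpow_natCast, ← Real.rpow_mul (by norm_num),
        ← Real.rpow_mul (by norm_num), mul_comm]
    simp only [h5]
    have h6 : (1 / 4 : ℝ) ^ (1 / α - 1) < 1 :=
      Real.rpow_lt_one (by norm_num) (by norm_num) (by linarith)
    have h7 := summable_geometric_of_lt_one (by positivity : (0 : ℝ) ≤ (1 / 4 : ℝ) ^ (1 / α - 1)) h6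
    exact (summable_nat_add_iff 1).2 h7

include h0 h1 in
theorem a_rpow_le_one (k : ℕ) : (a k) ^ (1 / α - 1) ≤ 1 := by
  have h2 := one_lt_inv h0 h1
  exact Real.rpow_le_one (a_pos k).le (by linarith [a_le_quarter k]) (by linarith)

include h0 h1 in
theorem ra_le_two (k : ℕ) : ra α k ≤ 2 := by
  have h2 := one_lt_inv h0 h1
  have h3 : ((k : ℝ) + 1) ^ (-(1 / α)) ≤ 1 := by
    apply Real.rpow_le_one_of_one_le_of_nonpos
    · have : (0 : ℝ) ≤ k := Nat.cast_nonneg k
      linarith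
    · linarith
  linarith [ra_le (α := α) k, a_rpow_le_one h0 h1 k]

theorem dl_eq (k : ℕ) : dl α k = ra α k * sp α k / 16 := by
  unfold dl ra sp
  rw [Real.rpow_sub_one (a_pos k).ne']
  have := (N_pos' (α := α) k).ne'
  have := (a_pos k).ne'
  field_simp

include h0 h1 in
theorem dl_le_sp (k : ℕ) : dl α k ≤ sp α k / 8 := by
  rw [dl_eq]
  have := ra_le_two h0 h1 k
  have := sp_pos (α := α) k
  nlinarith

include h0 h1 in
theorem dl_le_a (k : ℕ) : dl α k ≤ a k / 16 := by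
  unfold dl
  have h2 := one_lt_inv h0 h1
  have : (a k) ^ (1 / α) ≤ (a k) ^ (1 : ℝ) :=
    Real.rpow_le_rpow_of_exponent_ge (a_pos k) (by linarith [a_le_quarter k]) h2.le
  rw [Real.rpow_one] at this
  linarith

include h0 h1 in
theorem dl_rpow (k : ℕ) : a k / 16 ≤ (dl α k) ^ α ∧ (dl α k) ^ α ≤ a k := by
  unfold dl
  have hp := Real.rpow_pos_of_pos (a_pos k) (1 / α)
  have h3 : ((a k) ^ (1 / α)) ^ α = a k := by
    rw [← Real.rpow_mul (a_pos k).le, one_div, inv_mul_cancel₀ h0.ne', Real.rpow_one]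
  rw [Real.div_rpow hp.le (by norm_num), h3]
  have h4 : (16 : ℝ) ^ α ≤ 16 := by
    calc (16 : ℝ) ^ α ≤ 16 ^ (1 : ℝ) := Real.rpow_le_rpow_of_exponent_le (by norm_num) h1.le
      _ = 16 := by norm_num
  have h5 : (1 : ℝ) ≤ 16 ^ α := Real.one_le_rpow (by norm_num) h0.le
  have ha := a_pos k
  constructor
  · exact div_le_div_of_nonneg_left ha.le (by positivity) h4
  · rw [div_le_iff₀ (by positivity)]
    nlinarith

include h0 h1 in
theorem a_mul_dl (k : ℕ) : a k * (dl α k) ^ (1 - α) ≤ 16 * dl α k := by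
  have h := (dl_rpow h0 h1 k).1
  have hd := dl_pos (α := α) k
  have hp := Real.rpow_pos_of_pos hd α
  have hq := Real.rpow_pos_of_pos hd (1 - α)
  have h2 : (dl α k) ^ (1 - α) * (dl α k) ^ α = dl α k := by
    rw [← Real.rpow_add hd]; simp
  calc a k * (dl α k) ^ (1 - α) ≤ (16 * (dl α k) ^ α) * (dl α k) ^ (1 - α) :=
        mul_le_mul_of_nonneg_right (by linarith) hq.le
    _ = 16 * ((dl α k) ^ (1 - α) * (dl α k) ^ α) := by ring
    _ = _ := by rw [h2]

include h0 h1 in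
theorem N_mul_dl (k : ℕ) : N α k * (dl α k) ^ (1 - α) ≤ ra α k := by
  have h := a_mul_dl h0 h1 k
  have ha := a_pos k
  have hN := N_pos' (α := α) k
  have h2 : (dl α k) ^ (1 - α) ≤ 16 * dl α k / a k := by
    rw [le_div_iff₀ ha]; linarith
  calc N α k * (dl α k) ^ (1 - α) ≤ N α k * (16 * dl α k / a k) :=
        mul_le_mul_of_nonneg_left h2 hN.le
    _ = ra α k := by
        unfold dl ra
        rw [Real.rpow_sub_one ha.ne']
        field_simp

/-- harmonic sums -/
noncomputable def H (n : ℕ) : ℝ := ∑ i ∈ range n, ((i : ℝ) + 1)⁻¹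

theorem H_nonneg (n : ℕ) : 0 ≤ H n := Finset.sum_nonneg fun i _ => by positivity

theorem H_le (n : ℕ) : H n ≤ 1 + Real.log n := by
  have h := harmonic_le_one_add_log n
  have h2 : ((harmonic n : ℚ) : ℝ) = H n := by
    unfold harmonic H
    push_cast
    rfl
  rwa [h2] at h

include h0 h1 in
theorem exists_ra_H : ∃ C : ℝ, 0 ≤ C ∧ ∀ k : ℕ, ra α k * H (N α k) ≤ C := by
  have h2 := one_lt_inv h0 h1
  set β : ℝ := 1 / α - 1 with hβ
  have hβ0 : 0 < β := by simp only [hβ]; linarith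
  have hl4 : 0 < Real.log 4 := Real.log_pos (by norm_num)
  have hl2 : 0 < Real.log 2 := Real.log_pos (by norm_num)
  have hloga : ∀ k : ℕ, Real.log (a k) = -((k : ℝ) + 1) * Real.log 4 := by
    intro k
    unfold a
    rw [Real.log_pow, one_div, Real.log_inv]
    push_cast
    ring
  refine ⟨(1 + 1 / (β * Real.log 4)) * (1 + Real.log 2 + β * Real.log 4), by positivity, ?_⟩
  intro k
  have hk : (0 : ℝ) < (k : ℝ) + 1 := by positivity
  have hk1 : (1 : ℝ) ≤ (k : ℝ) + 1 := by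
    have : (0 : ℝ) ≤ k := Nat.cast_nonneg k
    linarith
  -- bound for `ra`
  have h3 : ra α k ≤ (1 + 1 / (β * Real.log 4)) / ((k : ℝ) + 1) := by
    have h4 : ((k : ℝ) + 1) ^ (-(1 / α)) ≤ 1 / ((k : ℝ) + 1) := by
      rw [one_div ((k : ℝ) + 1), ← Real.rpow_neg_one]
      exact Real.rpow_le_rpow_of_exponent_le hk1 (by linarith)
    have h5 : (a k) ^ β ≤ (1 / (β * Real.log 4)) / ((k : ℝ) + 1) := by
      rw [Real.rpow_def_of_pos (a_pos k), hloga]
      set x : ℝ := β * Real.log 4 * ((k : ℝ) + 1) with hx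
      have hx0 : 0 < x := by positivity
      have h6 : -((k : ℝ) + 1) * Real.log 4 * β = -x := by rw [hx]; ring
      have h7 : 1 / (β * Real.log 4) / ((k : ℝ) + 1) = x⁻¹ := by
        rw [hx]
        field_simp
      rw [h6, h7, Real.exp_neg]
      apply inv_anti₀ hx0
      linarith [Real.add_one_le_exp x]
    calc ra α k ≤ ((k : ℝ) + 1) ^ (-(1 / α)) + (a k) ^ (1 / α - 1) := ra_le k
      _ ≤ 1 / ((k : ℝ) + 1) + (1 / (β * Real.log 4)) / ((k : ℝ) + 1) := add_le_add h4 h5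
      _ = _ := by ring
  -- bound for `H`
  have h4 : H (N α k) ≤ (1 + Real.log 2 + β * Real.log 4) * ((k : ℝ) + 1) := by
    have hpow : (1 : ℝ) ≤ (a k) ^ (1 - 1 / α) := by
      apply Real.one_le_rpow_of_pos_of_le_one_of_nonpos (a_pos k)
      · linarith [a_le_quarter k]
      · linarith
    have hpk : ((k : ℝ) + 1) ^ (-(1 / α)) ≤ 1 :=
      Real.rpow_le_one_of_one_le_of_nonpos hk1 (by linarith)
    have hN : (N α k : ℝ) ≤ 2 * (a k) ^ (1 - 1 / α) := by
      have h5 : (N α k : ℝ) ≤ (a k) ^ (1 - 1 / α) * ((k : ℝ) + 1) ^ (-(1 / α)) + 1 := by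
        unfold N
        apply (Nat.ceil_lt_add_one _).le
        have := a_pos k
        positivity
      have h6 : (a k) ^ (1 - 1 / α) * ((k : ℝ) + 1) ^ (-(1 / α)) ≤ (a k) ^ (1 - 1 / α) * 1 :=
        mul_le_mul_of_nonneg_left hpk (by linarith)
      linarith
    have h7 : Real.log (N α k) ≤ Real.log 2 + β * Real.log 4 * ((k : ℝ) + 1) := by
      calc Real.log (N α k) ≤ Real.log (2 * (a k) ^ (1 - 1 / α)) :=
            Real.log_le_log (N_pos' k) hN
        _ = Real.log 2 + (1 - 1 / α) * Real.log (a k) := by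
            rw [Real.log_mul (by norm_num) (by linarith), Real.log_rpow (a_pos k)]
        _ = _ := by rw [hloga, hβ]; ring
    calc H (N α k) ≤ 1 + Real.log (N α k) := H_le _
      _ ≤ 1 + (Real.log 2 + β * Real.log 4 * ((k : ℝ) + 1)) := by linarith
      _ ≤ (1 + Real.log 2) * ((k : ℝ) + 1) + β * Real.log 4 * ((k : ℝ) + 1) := by nlinarith
      _ = _ := by ring
  calc ra α k * H (N α k) ≤ ((1 + 1 / (β * Real.log 4)) / ((k : ℝ) + 1)) *
        ((1 + Real.log 2 + β * Real.log 4) * ((k : ℝ) + 1)) :=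
        mul_le_mul h3 h4 (H_nonneg _) (by positivity)
    _ = _ := by field_simp

include h0 in
/-- the blocks carry a divergent integral -/
theorem block_ge (k : ℕ) : 1 / ((k : ℝ) + 1) ≤ a k * (sp α k) ^ (-α) := by
  have ha := a_pos k
  have hN := N_pos' (α := α) k
  have hk : (0 : ℝ) < (k : ℝ) + 1 := by positivity
  have h2 : (a k) ^ (1 - 1 / α) * ((k : ℝ) + 1) ^ (-(1 / α)) ≤ (N α k : ℝ) := Nat.le_ceil _
  have h3 : ((a k) ^ (1 - 1 / α) * ((k : ℝ) + 1) ^ (-(1 / α))) ^ α ≤ (N α k : ℝ) ^ α :=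
    Real.rpow_le_rpow (by positivity) h2 h0.le
  have h4 : ((a k) ^ (1 - 1 / α) * ((k : ℝ) + 1) ^ (-(1 / α))) ^ α =
      (a k) ^ (α - 1) * ((k : ℝ) + 1)⁻¹ := by
    rw [Real.mul_rpow (by positivity) (by positivity), ← Real.rpow_mul ha.le,
      ← Real.rpow_mul hk.le]
    congr 2
    · field_simp
    · rw [← Real.rpow_neg_one]
      congr 1
      field_simp
  have h5 : (sp α k) ^ (-α) = (a k) ^ (-α) * (N α k : ℝ) ^ α := by
    unfold sp
    rw [Real.rpow_neg (div_pos ha hN).le, Real.div_rpow ha.le hN.le, inv_div, Real.rpow_neg ha.le,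
      div_eq_mul_inv, mul_comm]
  rw [h5]
  rw [h4] at h3
  have hq := Real.rpow_pos_of_pos ha (-α)
  calc 1 / ((k : ℝ) + 1) = (a k) ^ (1 : ℝ) * ((a k) ^ (-α) * ((a k) ^ (α - 1) * ((k : ℝ) + 1)⁻¹)) := by
        rw [← mul_assoc, ← mul_assoc, ← Real.rpow_add ha, ← Real.rpow_add ha]
        have : (1 : ℝ) + -α + (α - 1) = 0 := by ring
        rw [this]
        simp
    _ ≤ (a k) ^ (1 : ℝ) * ((a k) ^ (-α) * (N α k : ℝ) ^ α) := by
        apply mul_le_mul_of_nonneg_left _ (by positivity)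
        exact mul_le_mul_of_nonneg_left h3 hq.le
    _ = _ := by rw [Real.rpow_one]

end

end Pool.Agent.L7h52.Peak
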